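import Pool.Agent.H15.KM.Nm

/-!
# Module Alg: homogeneity of `G1`, `G2` in the direction
-/

set_option autoImplicit false

open MeasureTheory Set Filter Topology Pool.Agent.H25.Kin

namespace Pool.Agent.H15.KM

variable {d : ℕ} {β : ℝ}

theorem dot_smul_r (c : ℝ) (a b : Vec d) : dot a (c • b) = c * dot a b := by
  unfold dot
  rw [Finset.mul_sum]
  exact Finset.sum_congr rfl fun i _ => by
    simp only [Pi.smul_apply, smul_eq_mul]
    ring

theorem dot_zero_r (a : Vec d) : dot a 0 = 0 := by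
  unfold dot
  simp

theorem R1_smul (c : ℝ) (Z Q a b : Vec d) : R1 β Z Q (c • a) (c • b) = c * R1 β Z Q a b := by
  unfold R1
  simp only [dot_smul_r]
  ring

theorem G1_smul (c : ℝ) (Z Q a b : Vec d) : G1 β Z Q (c • a) (c • b) = c * G1 β Z Q a b := by
  unfold G1
  rw [R1_smul]
  ring

theorem G2_smul (c : ℝ) (Z Q b : Vec d) : G2 β Z Q (c • b) = c ^ 2 * G2 β Z Q b := by
  unfold G2 R2
  have h := R1_smul (β := β) c Z Q 0 b
  rw [smul_zero] at h
  rw [h]
  simp only [dot_smul_r, nsq_smul]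
  ring

end Pool.Agent.H15.KM
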