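import Pool.Agent.H15.KM.Nm

/-!
# Module Ann: the good sign on the annulus `1/3000 ≤ R ≤ 5`

Pure algebra. `β = 1/10^7`, `κ = 10/lam`. Put `n₁ = nm β Z Q`, `n₂ = nm β Q Z`, `p = |Z|²`, `q = |Q|²`, `m = Z·Q`, `|m| ≤ |Z||Q|`, `1 ≤ GG ≤ √6`, `n₁ ≥ |Z|, β|Q|`, `n₂ ≥ |Q|, β|Z|`.
(0) for all `b`: `R2 ≤ |b|² (2β²/n₁ + 1/n₂)`; `|Z|+|Q| ≥ RR/4 ≥ 1/12000` (`RR_le`), so one of them is `≥ 1/24000` and `n₁, n₂ ≥ β/24000`.
(1) the first derivative in the direction `(U,U)`, `U = (1/κ)(Q-Z)`: `R1 = (1/κ) [2 (-p + (1-β²) m + β² q)/n₁ + (q - (1-β²) m - β² p)/n₂]`.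
Case `|Q| ≤ |Z|/10`: `-p + |m| + β² q ≤ -0.89 p`, `n₁ ≤ 1.001 |Z|`, second term `≤ |Q| + |Z| ≤ 1.1 |Z|` (`|m|/n₂ ≤ |Z|`, also for `Q = 0`), so `R1 ≤ -0.6 |Z|/κ`, and `|Z| ≥ RR/2.2 ≥ 1/6600`: first alternative.
Case `|Q| > |Z|/10`: `R1 ≤ (1/κ)(2(1+β)|Q| + |Q| + |Z|) ≤ 4 RR/κ ≤ 20/κ = 2 lam`. `e = Q/|Q|`, `b = κ e`: `|Q| ≥ RR/22 ≥ 1/66000`; `R2 = 2 β²κ²|Z|²/n₁³ + β²κ²|Z|²/n₂³ ≤ κ² (2β + 100 β²)/|Q| ≤ 0.0133 κ²`
(`|Z|²/n₁³ ≤ 1/n₁ ≤ 1/(β|Q|)`, `|Z|² ≤ 100|Q|²`), `R1(0,κe) ≥ κ|Q|/n₂ ≥ 0.99 κ`, so `G2 ≤ (κ²/(2GG)) (0.0133 - 0.98/12) ≤ -0.03 κ²/GG`; `4 lam G2 ≤ -0.12·100/(lam GG)`, `G1 ≤ 2 lam/(2 GG)`, so the sum is `≤ -(12/lam - lam)/GG ≤ -4`: second alternative.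
-/

set_option autoImplicit false

open MeasureTheory Set Filter Topology Pool.Agent.H25.Kin

namespace Pool.Agent.H15.KM

variable {d : ℕ}

/-- the parameter `β` -/
noncomputable def be : ℝ := 1 / 10 ^ 7

private theorem Ann_be : (0 : ℝ) < be := by unfold be; norm_num

private theorem Ann_dot_smul (c : ℝ) (a b : Vec d) : dot a (c • b) = c * dot a b := by
  unfold dot
  rw [Finset.mul_sum]
  exact Finset.sum_congr rfl fun i _ => by
    simp only [Pi.smul_apply, smul_eq_mul]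
    ring

private theorem Ann_dot_sub (a b c : Vec d) : dot a (b - c) = dot a b - dot a c := by
  unfold dot
  rw [← Finset.sum_sub_distrib]
  exact Finset.sum_congr rfl fun i _ => by
    simp only [Pi.sub_apply]
    ring

private theorem Ann_dot_comm (a b : Vec d) : dot a b = dot b a := by
  unfold dot
  exact Finset.sum_congr rfl fun i _ => by ring

private theorem Ann_dot_zero (a : Vec d) : dot a 0 = 0 := by
  unfold dot
  simp

private theorem Ann_case1 {z w n1 n2 m : ℝ} (hz : 0 < z) (hw : 0 ≤ w) (hwz : w ≤ z / 10)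
    (h1 : n1 ≤ z + be * w) (h1p : 0 < n1) (h2 : w ≤ n2) (h2p : 0 < n2) (hm : |m| ≤ z * w) :
    2 * (((m - z ^ 2) + be ^ 2 * (w ^ 2 - m)) / n1) + ((w ^ 2 - m) + be ^ 2 * (m - z ^ 2)) / n2 ≤
      -(6 / 10) * z := by
  have hb : be = 1 / 10 ^ 7 := rfl
  have hm1 := (abs_le.1 hm).1
  have hm2 := (abs_le.1 hm).2
  have hzw : z * w ≤ z ^ 2 / 10 := by nlinarith
  have hww : w ^ 2 ≤ z ^ 2 / 100 := by nlinarith
  have hz2 : 0 < z ^ 2 := by positivity
  have e1 : ((m - z ^ 2) + be ^ 2 * (w ^ 2 - m)) / n1 ≤ -(889 / 1000) * z := by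
    rw [div_le_iff₀ h1p]
    have hn : n1 ≤ (1001 / 1000) * z := by
      rw [hb] at h1
      nlinarith
    have h3 : (m - z ^ 2) + be ^ 2 * (w ^ 2 - m) ≤ -(89 / 100 + 5 / 1000) * z ^ 2 := by
      rw [hb]
      norm_num
      nlinarith
    nlinarith [mul_le_mul_of_nonneg_left hn hz.le]
  have e2 : ((w ^ 2 - m) + be ^ 2 * (m - z ^ 2)) / n2 ≤ w + z := by
    rw [div_le_iff₀ h2p]
    have h3 : (w ^ 2 - m) + be ^ 2 * (m - z ^ 2) ≤ w * (w + z) := by
      rw [hb]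
      norm_num
      nlinarith
    nlinarith [mul_le_mul_of_nonneg_right h2 (by linarith : 0 ≤ w + z)]
  linarith

private theorem Ann_case2 {z w n1 n2 m : ℝ} (hz : 0 ≤ z) (hw : 0 < w)
    (h1 : z ≤ n1) (h1b : be * w ≤ n1) (h2 : w ≤ n2) (hm : |m| ≤ z * w) :
    2 * (((m - z ^ 2) + be ^ 2 * (w ^ 2 - m)) / n1) + ((w ^ 2 - m) + be ^ 2 * (m - z ^ 2)) / n2 ≤
      4 * (2 * z + w) := by
  have hb : be = 1 / 10 ^ 7 := rfl
  have hbp := Ann_be
  have hm1 := (abs_le.1 hm).1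
  have hm2 := (abs_le.1 hm).2
  have h1p : 0 < n1 := lt_of_lt_of_le (mul_pos hbp hw) h1b
  have h2p : 0 < n2 := lt_of_lt_of_le hw h2
  have e1 : ((m - z ^ 2) + be ^ 2 * (w ^ 2 - m)) / n1 ≤ w + be * w := by
    rw [div_le_iff₀ h1p]
    have h3 : (m - z ^ 2) + be ^ 2 * (w ^ 2 - m) ≤ z * w + be ^ 2 * w ^ 2 := by
      have : (m - z ^ 2) + be ^ 2 * (w ^ 2 - m) = (1 - be ^ 2) * m - z ^ 2 + be ^ 2 * w ^ 2 := by ring
      rw [this]
      have hb1 : 0 ≤ 1 - be ^ 2 := by rw [hb]; norm_num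
      have h4 : (1 - be ^ 2) * m ≤ (1 - be ^ 2) * (z * w) := mul_le_mul_of_nonneg_left hm2 hb1
      have h5 : 0 ≤ be ^ 2 * (z * w) := by positivity
      nlinarith [sq_nonneg z]
    have h4 : z * w ≤ w * n1 := by nlinarith
    have h5 : be ^ 2 * w ^ 2 ≤ be * w * n1 := by
      have := mul_le_mul_of_nonneg_left h1b (mul_nonneg hbp.le hw.le)
      nlinarith
    linarith
  have e2 : ((w ^ 2 - m) + be ^ 2 * (m - z ^ 2)) / n2 ≤ w + z := by
    rw [div_le_iff₀ h2p]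
    have h3 : (w ^ 2 - m) + be ^ 2 * (m - z ^ 2) ≤ w * (w + z) := by
      have : (w ^ 2 - m) + be ^ 2 * (m - z ^ 2) = w ^ 2 + (1 - be ^ 2) * (-m) - be ^ 2 * z ^ 2 := by
        ring
      rw [this]
      have hb1 : 0 ≤ 1 - be ^ 2 := by rw [hb]; norm_num
      have h4 : (1 - be ^ 2) * (-m) ≤ (1 - be ^ 2) * (z * w) :=
        mul_le_mul_of_nonneg_left (by linarith) hb1
      have h5 : 0 ≤ be ^ 2 * (z * w) := by positivity
      nlinarith [mul_nonneg (sq_nonneg be) (sq_nonneg z)]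
    nlinarith [mul_le_mul_of_nonneg_right h2 (by linarith : 0 ≤ w + z)]
  have hbw : be * w ≤ w / 4 := by
    rw [hb]
    linarith
  linarith

private theorem Ann_R2 {z w n1 n2 k : ℝ} (hz : 0 ≤ z) (hw : 1 / 66000 ≤ w) (hzw : z ≤ 10 * w)
    (hn1 : n1 ^ 2 = z ^ 2 + be ^ 2 * w ^ 2) (hn2 : n2 ^ 2 = w ^ 2 + be ^ 2 * z ^ 2)
    (h1b : be * w ≤ n1) (h2 : w ≤ n2) :
    2 * ((be ^ 2 * k ^ 2 - (be ^ 2 * (k * w) / n1) ^ 2) / n1) + (k ^ 2 - (k * w / n2) ^ 2) / n2 ≤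
      133 / 10000 * k ^ 2 := by
  have hb : be = 1 / 10 ^ 7 := rfl
  have hbp := Ann_be
  have hw0 : 0 < w := lt_of_lt_of_le (by norm_num) hw
  have h1p : 0 < n1 := lt_of_lt_of_le (mul_pos hbp hw0) h1b
  have h2p : 0 < n2 := lt_of_lt_of_le hw0 h2
  have e1 : (be ^ 2 * k ^ 2 - (be ^ 2 * (k * w) / n1) ^ 2) / n1 ≤ be * k ^ 2 * 66000 := by
    have h3 : be ^ 2 * k ^ 2 - (be ^ 2 * (k * w) / n1) ^ 2 ≤ be ^ 2 * k ^ 2 := by
      linarith [sq_nonneg (be ^ 2 * (k * w) / n1)]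
    rw [div_le_iff₀ h1p]
    refine h3.trans ?_
    have h4 : be * (1 / 66000) ≤ n1 := (mul_le_mul_of_nonneg_left hw hbp.le).trans h1b
    have h5 : be * k ^ 2 * 66000 * (be * (1 / 66000)) ≤ be * k ^ 2 * 66000 * n1 :=
      mul_le_mul_of_nonneg_left h4 (by positivity)
    calc be ^ 2 * k ^ 2 = be * k ^ 2 * 66000 * (be * (1 / 66000)) := by ring
      _ ≤ _ := h5
  have e2 : (k ^ 2 - (k * w / n2) ^ 2) / n2 ≤ 100 * be ^ 2 * k ^ 2 * 66000 := by
    have h3 : k ^ 2 - (k * w / n2) ^ 2 ≤ 100 * be ^ 2 * k ^ 2 := by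
      have h4 : k ^ 2 - (k * w / n2) ^ 2 = k ^ 2 * (n2 ^ 2 - w ^ 2) / n2 ^ 2 := by
        field_simp
      rw [h4, div_le_iff₀ (by positivity), hn2]
      have h5 : z ^ 2 ≤ 100 * w ^ 2 := by nlinarith
      have h6 : be ^ 2 * k ^ 2 * z ^ 2 ≤ be ^ 2 * k ^ 2 * (100 * w ^ 2) :=
        mul_le_mul_of_nonneg_left h5 (by positivity)
      have h7 : 0 ≤ 100 * be ^ 2 * k ^ 2 * (be ^ 2 * z ^ 2) := by positivity
      nlinarith
    rw [div_le_iff₀ h2p]
    refine h3.trans ?_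
    have h4 : (1 / 66000 : ℝ) ≤ n2 := hw.trans h2
    have h5 : 100 * be ^ 2 * k ^ 2 * 66000 * (1 / 66000) ≤ 100 * be ^ 2 * k ^ 2 * 66000 * n2 :=
      mul_le_mul_of_nonneg_left h4 (by positivity)
    calc 100 * be ^ 2 * k ^ 2 = 100 * be ^ 2 * k ^ 2 * 66000 * (1 / 66000) := by ring
      _ ≤ _ := h5
  have hk : 0 ≤ k ^ 2 := sq_nonneg k
  rw [hb] at e1 e2 ⊢
  norm_num at e1 e2 ⊢
  nlinarith

private theorem Ann_ratio {z w n2 : ℝ} (hz : 0 ≤ z) (hw : 0 < w) (hzw : z ≤ 10 * w)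
    (h2u : n2 ≤ w + be * z) (h2 : w ≤ n2) : 99 / 100 ≤ w / n2 := by
  have hb : be = 1 / 10 ^ 7 := rfl
  have h2p : 0 < n2 := lt_of_lt_of_le hw h2
  rw [le_div_iff₀ h2p]
  rw [hb] at h2u
  linarith

private theorem Ann_nsq_ne {a : Vec d} (h : 0 < len a) : nsq ((1 / len a) • a) = 1 := by
  rw [nsq_smul, ← len_sq]
  field_simp

private theorem Ann_fin {lam g G1' G2' : ℝ} (hlam : 0 < lam) (hlam1 : lam ≤ 1) (hg : 1 ≤ g)
    (hg3 : g ^ 2 ≤ 6) (h1 : G1' ≤ 2 * lam / (2 * g)) (h2 : G2' ≤ -(3 / 100) * (10 / lam) ^ 2 / g) :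
    1 / 1000000 * lam ≤ -G1' - 4 * lam * G2' := by
  have hg0 : 0 < g := by linarith
  have hg4 : g ≤ 3 := by nlinarith
  have h3 : 4 * lam * G2' ≤ -(12 / lam) / g := by
    have := mul_le_mul_of_nonneg_left h2 (by positivity : 0 ≤ 4 * lam)
    refine this.trans (le_of_eq ?_)
    field_simp
    ring
  have h4 : 2 * lam / (2 * g) = lam / g := by
    field_simp
  have h5 : 12 ≤ 12 / lam := by
    rw [le_div_iff₀ hlam]
    linarith
  have h6 : lam / g ≤ 1 / g := div_le_div_of_nonneg_right hlam1 hg0.le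
  have h7 : -(12 / lam) / g ≤ -12 / g := div_le_div_of_nonneg_right (by linarith) hg0.le
  have h8 : 1 / 3 ≤ 1 / g := one_div_le_one_div_of_le hg0 hg4
  have h9 : -12 / g = -12 * (1 / g) := by ring
  rw [h9] at h7
  rw [h4] at h1
  nlinarith

private theorem Ann_pos {Z Q : Vec d} (h : 1 / 3000 ≤ RR be Z Q) :
    be / 24000 ≤ nm be Z Q ∧ be / 24000 ≤ nm be Q Z := by
  have hb : be = 1 / 10 ^ 7 := rfl
  have hbp := Ann_be
  have h1 := RR_le hbp.le Z Q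
  have hz := len_nn Z
  have hw := len_nn Q
  have h2 : 1 / 12000 ≤ len Z + len Q := by
    have h3 : (2 + be) * len Z ≤ 4 * len Z := mul_le_mul_of_nonneg_right (by rw [hb]; norm_num) hz
    have h4 : (1 + 2 * be) * len Q ≤ 4 * len Q :=
      mul_le_mul_of_nonneg_right (by rw [hb]; norm_num) hw
    linarith
  have key : ∀ a b : Vec d, 1 / 12000 ≤ len a + len b → be / 24000 ≤ nm be a b := by
    intro a b hab
    have ha := len_nn a
    have hbb := len_nn b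
    rcases le_total (1 / 24000 : ℝ) (len b) with h3 | h3
    · refine le_trans ?_ (mul_len_le_nm hbp.le a b)
      have := mul_le_mul_of_nonneg_left h3 hbp.le
      linarith
    · have h4 : 1 / 24000 ≤ len a := by linarith
      refine le_trans ?_ (len_le_nm a b)
      rw [hb]
      linarith
  exact ⟨key Z Q h2, key Q Z (by linarith)⟩

private theorem Ann_zero {Z Q b : Vec d} (h : 1 / 3000 ≤ RR be Z Q) :
    G2 be Z Q b ≤ 10 ^ 12 * nsq b := by
  have hb : be = 1 / 10 ^ 7 := rfl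
  have hbp := Ann_be
  obtain ⟨h1, h2⟩ := Ann_pos h
  have hg := one_le_GG (β := be) Z Q
  have hg0 : 0 < GG be Z Q := by linarith
  have hn := nsq_nn b
  have hn1 : 0 < nm be Z Q := lt_of_lt_of_le (by positivity) h1
  have hn2 : 0 < nm be Q Z := lt_of_lt_of_le (by positivity) h2
  have hR : R2 be Z Q b ≤ 10 ^ 12 * nsq b := by
    unfold R2
    have e1 : (be ^ 2 * nsq b - (be ^ 2 * dot Q b / nm be Z Q) ^ 2) / nm be Z Q ≤
        (10 ^ 12 / 4) * nsq b := by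
      rw [div_le_iff₀ hn1]
      have h3 : be ^ 2 * nsq b ≤ (10 ^ 12 / 4) * nsq b * (be / 24000) := by
        rw [hb]
        nlinarith
      have h4 : (10 ^ 12 / 4) * nsq b * (be / 24000) ≤ (10 ^ 12 / 4) * nsq b * nm be Z Q :=
        mul_le_mul_of_nonneg_left h1 (by positivity)
      linarith [sq_nonneg (be ^ 2 * dot Q b / nm be Z Q)]
    have e2 : (nsq b - (dot Q b / nm be Q Z) ^ 2) / nm be Q Z ≤ (10 ^ 12 / 2) * nsq b := by
      rw [div_le_iff₀ hn2]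
      have h3 : nsq b ≤ (10 ^ 12 / 2) * nsq b * (be / 24000) := by
        rw [hb]
        nlinarith
      have h4 : (10 ^ 12 / 2) * nsq b * (be / 24000) ≤ (10 ^ 12 / 2) * nsq b * nm be Q Z :=
        mul_le_mul_of_nonneg_left h2 (by positivity)
      linarith [sq_nonneg (dot Q b / nm be Q Z)]
    linarith
  unfold G2
  have h5 : R2 be Z Q b / (2 * GG be Z Q) ≤ 10 ^ 12 * nsq b := by
    rw [div_le_iff₀ (by positivity)]
    have h6 : 10 ^ 12 * nsq b * 1 ≤ 10 ^ 12 * nsq b * (2 * GG be Z Q) :=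
      mul_le_mul_of_nonneg_left (by linarith) (by positivity)
    linarith
  have h7 : 0 ≤ R1 be Z Q 0 b ^ 2 / (4 * GG be Z Q ^ 3) := by positivity
  linarith

theorem annulus : ∃ c C : ℝ, 0 < c ∧ 1 ≤ C ∧ ∀ lam : ℝ, 0 < lam → lam ≤ 1 → ∀ Z Q : Vec d,
    1 / 3000 ≤ RR be Z Q → RR be Z Q ≤ 5 →
    (∀ b, G2 be Z Q b ≤ C * nsq b) ∧
    (c * lam ≤ -G1 be Z Q ((lam / 10) • (Q - Z)) ((lam / 10) • (Q - Z)) ∨
      ∃ e : Vec d, nsq e = 1 ∧
        c * lam ≤ -G1 be Z Q ((lam / 10) • (Q - Z)) ((lam / 10) • (Q - Z)) -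
          4 * lam * G2 be Z Q ((10 / lam) • e)) := by
  refine ⟨1 / 1000000, 10 ^ 12, by norm_num, by norm_num, ?_⟩
  intro lam hlam hlam1 Z Q hR1 hR2
  refine ⟨fun b => Ann_zero hR1, ?_⟩
  have hb : be = 1 / 10 ^ 7 := rfl
  have hbp := Ann_be
  obtain ⟨hp1, hp2⟩ := Ann_pos hR1
  have hn1p : 0 < nm be Z Q := lt_of_lt_of_le (by positivity) hp1
  have hn2p : 0 < nm be Q Z := lt_of_lt_of_le (by positivity) hp2
  have hz := len_nn Z
  have hw := len_nn Q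
  have hm := dot_abs Z Q
  have hg := one_le_GG (β := be) Z Q
  have hg0 : 0 < GG be Z Q := by linarith
  have hgs := GG_sq (β := be) Z Q
  have hRle := RR_le hbp.le Z Q
  have hRge := len_le_RR (β := be) Z Q
  have hn1s : nm be Z Q ^ 2 = len Z ^ 2 + be ^ 2 * len Q ^ 2 := by
    rw [len_sq, len_sq]
    exact Real.sq_sqrt (add_nonneg (nsq_nn Z) (mul_nonneg (sq_nonneg _) (nsq_nn Q)))
  have hn2s : nm be Q Z ^ 2 = len Q ^ 2 + be ^ 2 * len Z ^ 2 := by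
    rw [len_sq, len_sq]
    exact Real.sq_sqrt (add_nonneg (nsq_nn Q) (mul_nonneg (sq_nonneg _) (nsq_nn Z)))
  have hR : R1 be Z Q ((lam / 10) • (Q - Z)) ((lam / 10) • (Q - Z)) =
      (lam / 10) * (2 * (((dot Z Q - len Z ^ 2) + be ^ 2 * (len Q ^ 2 - dot Z Q)) / nm be Z Q) +
        ((len Q ^ 2 - dot Z Q) + be ^ 2 * (dot Z Q - len Z ^ 2)) / nm be Q Z) := by
    unfold R1
    rw [Ann_dot_smul, Ann_dot_smul, Ann_dot_sub, Ann_dot_sub, dot_self', dot_self',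
      Ann_dot_comm Q Z, len_sq, len_sq]
    ring
  rcases le_or_gt (len Q) (len Z / 10) with hc | hc
  · left
    have hz1 : 1 / 6600 ≤ len Z := by
      have h3 : (2 + be) * len Z + (1 + 2 * be) * len Q ≤ 22 / 10 * len Z := by
        rw [hb]
        nlinarith
      linarith
    have h3 := Ann_case1 (z := len Z) (w := len Q) (m := dot Z Q) (by linarith) hw hc
      (nm_le hbp.le Z Q) hn1p (len_le_nm Q Z) hn2p hm
    unfold G1
    rw [hR]
    set X := 2 * (((dot Z Q - len Z ^ 2) + be ^ 2 * (len Q ^ 2 - dot Z Q)) / nm be Z Q) +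
        ((len Q ^ 2 - dot Z Q) + be ^ 2 * (dot Z Q - len Z ^ 2)) / nm be Q Z with hX
    have h4 : X ≤ -(6 / 66000) := by nlinarith
    have hg3 : GG be Z Q ≤ 3 := by nlinarith
    rw [← neg_div, le_div_iff₀ (by positivity)]
    nlinarith [mul_le_mul_of_nonneg_left h4 (by positivity : 0 ≤ lam / 10)]
  · right
    have hw0 : 0 < len Q := by linarith
    have hzw : len Z ≤ 10 * len Q := by linarith
    refine ⟨(1 / len Q) • Q, Ann_nsq_ne hw0, ?_⟩
    have hw1 : 1 / 66000 ≤ len Q := by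
      have h3 : (2 + be) * len Z + (1 + 2 * be) * len Q ≤ 22 * len Q := by
        rw [hb]
        nlinarith
      linarith
    have h3 := Ann_case2 (z := len Z) (w := len Q) (m := dot Z Q) hz hw0
      (len_le_nm Z Q) (mul_len_le_nm hbp.le Z Q) (len_le_nm (β := be) Q Z) hm
    have hdq : dot Q ((10 / lam) • (1 / len Q) • Q) = (10 / lam) * len Q := by
      rw [Ann_dot_smul, Ann_dot_smul, dot_self', ← len_sq]
      field_simp
    have hns : nsq ((10 / lam) • (1 / len Q) • Q) = (10 / lam) ^ 2 := by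
      rw [nsq_smul, Ann_nsq_ne hw0, mul_one]
    refine Ann_fin hlam hlam1 hg (by linarith) ?_ ?_
    · unfold G1
      rw [hR]
      refine div_le_div_of_nonneg_right ?_ (by positivity)
      have h4 : 4 * (2 * len Z + len Q) ≤ 20 := by linarith
      have h5 := mul_le_mul_of_nonneg_left (h3.trans h4) (by positivity : 0 ≤ lam / 10)
      linarith
    · have h4 := Ann_R2 (k := 10 / lam) hz hw1 hzw hn1s hn2s (mul_len_le_nm hbp.le Z Q)
        (len_le_nm Q Z)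
      have h5 := Ann_ratio hz hw0 hzw (nm_le hbp.le Q Z) (len_le_nm Q Z)
      unfold G2
      have h6 : R2 be Z Q ((10 / lam) • (1 / len Q) • Q) ≤ 133 / 10000 * (10 / lam) ^ 2 := by
        unfold R2
        rw [hdq, hns]
        exact h4
      have h7 : 99 / 100 * (10 / lam) ≤ R1 be Z Q 0 ((10 / lam) • (1 / len Q) • Q) := by
        unfold R1
        rw [hdq, Ann_dot_zero]
        have h8 : 0 ≤ 2 * ((0 + be ^ 2 * (10 / lam * len Q)) / nm be Z Q) := by positivity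
        have h9 : (10 / lam * len Q + be ^ 2 * 0) / nm be Q Z = 10 / lam * (len Q / nm be Q Z) := by
          ring
        rw [h9]
        have h10 := mul_le_mul_of_nonneg_left h5 (by positivity : 0 ≤ 10 / lam)
        linarith
      set k := 10 / lam with hk
      have hk0 : 0 < k := by positivity
      set r2 := R2 be Z Q (k • (1 / len Q) • Q) with hr2
      set r1 := R1 be Z Q 0 (k • (1 / len Q) • Q) with hr1
      set g := GG be Z Q with hgdef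
      have h8 : r2 / (2 * g) ≤ 133 / 20000 * k ^ 2 / g := by
        rw [div_le_div_iff₀ (by positivity) hg0]
        nlinarith
      have h9 : 4 / 100 * k ^ 2 / g ≤ r1 ^ 2 / (4 * g ^ 3) := by
        have h10 : 98 / 100 * k ^ 2 ≤ r1 ^ 2 := by nlinarith
        rw [div_le_div_iff₀ hg0 (by positivity)]
        have h11 : g ^ 2 ≤ 6 := by linarith
        have h12 : 4 / 100 * k ^ 2 * (4 * g ^ 3) = 16 / 100 * k ^ 2 * g ^ 2 * g := by ring
        rw [h12]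
        refine mul_le_mul_of_nonneg_right ?_ hg0.le
        nlinarith [mul_le_mul_of_nonneg_left h11 (by positivity : 0 ≤ 16 / 100 * k ^ 2)]
      have h10 : 133 / 20000 * k ^ 2 / g - 4 / 100 * k ^ 2 / g ≤ -(3 / 100) * k ^ 2 / g := by
        rw [← sub_div]
        refine div_le_div_of_nonneg_right ?_ hg0.le
        nlinarith [sq_nonneg k]
      linarith

end Pool.Agent.H15.KM
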