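import Pool.Agent.H15.KM.Key

/-!
# Module Below: `u(t,x,v) - u(t,y,w) ≤ Φ_k` for all scales
-/

set_option autoImplicit false

open MeasureTheory Set Filter Topology Pool.Agent.H25.Kin

namespace Pool.Agent.H15.KM

variable {d : ℕ}

/-- `(∂_t + v·∇_x) u = A_ij ∂_ij u + g` on the cylinder `[t₀-r², t₀] × ℝ^d × B(v₀,r)` -/
structure KEq (lam ρ G T t₀ r : ℝ) (v₀ : Vec d) (A : ℝ → Vec d → Vec d → Fin d → Fin d → ℝ)
    (u : ℝ → Vec d → Vec d → ℝ) : Prop where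
  c2 : C2On T u
  per : ∀ t ∈ Ioo 0 T, ∀ x v i, u t (x + Pi.single i 1) v = u t x v
  bd : ∀ t ∈ Icc (t₀ - r ^ 2) t₀, ∀ x v, len (v - v₀) ≤ r → |u t x v| ≤ 1
  sym : ∀ t ∈ Icc (t₀ - r ^ 2) t₀, ∀ x v, len (v - v₀) ≤ r → ∀ i j, A t x v i j = A t x v j i
  low : ∀ t ∈ Icc (t₀ - r ^ 2) t₀, ∀ x v, len (v - v₀) ≤ r → ∀ ξ, 2 * lam * nsq ξ ≤ qf (A t x v) ξ
  upp : ∀ t ∈ Icc (t₀ - r ^ 2) t₀, ∀ x v, len (v - v₀) ≤ r → ∑ i, A t x v i i ≤ 1 / lam
  osc : ∀ t ∈ Icc (t₀ - r ^ 2) t₀, ∀ x v y w, len (v - v₀) ≤ r → len (w - v₀) ≤ r →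
    ∀ ξ, |qf (A t x v) ξ - qf (A t y w) ξ| ≤ ρ * nsq ξ
  eqn : ∀ t ∈ Icc (t₀ - r ^ 2) t₀, ∀ x v, len (v - v₀) ≤ r →
    |transport u t x v - trp (A t x v) (fun i j => pd i (pd j (u t x)) v)| ≤ G / r ^ 2

/-- the annulus inequality -/
def AnnP (d : ℕ) (c C lam : ℝ) : Prop := ∀ Z Q : Vec d,
    1 / 3000 ≤ RR be Z Q → RR be Z Q ≤ 5 →
    (∀ b, G2 be Z Q b ≤ C * nsq b) ∧
    (c * lam ≤ -G1 be Z Q ((lam / 10) • (Q - Z)) ((lam / 10) • (Q - Z)) ∨
      ∃ e : Vec d, nsq e = 1 ∧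
        c * lam ≤ -G1 be Z Q ((lam / 10) • (Q - Z)) ((lam / 10) • (Q - Z)) -
          4 * lam * G2 be Z Q ((10 / lam) • e))

theorem be_pos : 0 < be := by unfold be; positivity

/-- the numbers -/
theorem num {c lam G K τ g S N : ℝ} (hc : 0 < c) (hc1 : c ≤ 1) (hl : 0 < lam) (hl1 : lam ≤ 1)
    (hG : 1 ≤ G) (hK : 100 * G / (c * lam ^ 2) ≤ K) (hτ : 0 < τ) (hτ1 : τ ≤ 1) (hg : 1 ≤ g)
    (hg3 : g ≤ 3) (hN : 1 ≤ N) (hS : S * N = K / τ) (hB : S * g ≤ 2)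
    (h : S * N ^ 8 * (c * lam * (3 / 4)) ≤ S * g / τ + 12 / lam + 2 * G) : False := by
  have hcl : 0 < c * lam ^ 2 := by positivity
  have hK0 : 100 * G ≤ K * (c * lam ^ 2) := by rwa [div_le_iff₀ hcl] at hK
  have hKp : 0 < K := by
    by_contra hn
    have : K * (c * lam ^ 2) ≤ 0 := mul_nonpos_of_nonpos_of_nonneg (not_lt.1 hn) hcl.le
    linarith
  have hSN : 0 < S * N := by rw [hS]; positivity
  have hSp : 0 < S := by
    by_contra hn
    have : S * N ≤ 0 := mul_nonpos_of_nonpos_of_nonneg (not_lt.1 hn) (by linarith)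
    linarith
  have hS2 : S ≤ 2 := by nlinarith
  have hN2 : K ≤ 2 * (N * τ) := by
    have h1 : S * N * τ = K := by rw [hS]; field_simp
    have h2 : S * (N * τ) ≤ 2 * (N * τ) := mul_le_mul_of_nonneg_right hS2 (by positivity)
    linarith
  have hcK : 100 ≤ K * (c * lam) := by
    have h1 : K * (c * lam ^ 2) ≤ K * (c * lam) := by
      have : c * lam ^ 2 ≤ c * lam := by nlinarith [mul_pos hc hl]
      exact mul_le_mul_of_nonneg_left this hKp.le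
    linarith
  have hN8 : N ≤ N ^ 8 := le_self_pow₀ hN (by norm_num)
  have hSN8 : 0 ≤ S * N ^ 8 := by positivity
  -- (i)
  have h1 : S * g / τ ≤ S * N ^ 8 * (c * lam * (1 / 4)) := by
    have e1 : g / τ ≤ N ^ 8 * (c * lam * (1 / 4)) := by
      rw [div_le_iff₀ hτ]
      have e2 : 100 ≤ 2 * (N * τ) * (c * lam) := hcK.trans
        (mul_le_mul_of_nonneg_right hN2 (by positivity))
      have e3 : N * τ * (c * lam) ≤ N ^ 8 * τ * (c * lam) := by
        have : N * τ ≤ N ^ 8 * τ := mul_le_mul_of_nonneg_right hN8 hτ.le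
        exact mul_le_mul_of_nonneg_right this (by positivity)
      nlinarith
    calc S * g / τ = S * (g / τ) := by ring
      _ ≤ S * (N ^ 8 * (c * lam * (1 / 4))) := mul_le_mul_of_nonneg_left e1 hSp.le
      _ = _ := by ring
  -- (ii)
  have h2 : K ≤ S * N ^ 8 := by
    have e1 : K ≤ K / τ := by
      rw [le_div_iff₀ hτ]
      nlinarith
    have e2 : K / τ ≤ S * N ^ 8 := by
      rw [← hS]
      exact mul_le_mul_of_nonneg_left hN8 hSp.le
    linarith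
  have h3 : K * (c * lam) * (1 / 2) ≤ S * N ^ 8 * (c * lam * (1 / 2)) := by
    have := mul_le_mul_of_nonneg_right h2 (by positivity : 0 ≤ c * lam * (1 / 2))
    linarith
  have h4 : 50 * G / lam ≤ K * (c * lam) * (1 / 2) := by
    rw [div_le_iff₀ hl]
    nlinarith
  have h5 : 12 / lam + 2 * G ≤ 14 * G / lam := by
    rw [div_add' _ _ _ hl.ne', div_le_div_iff_of_pos_right hl]
    nlinarith
  have h6 : 14 * G / lam < 50 * G / lam := by
    rw [div_lt_div_iff_of_pos_right hl]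
    linarith
  linarith

private theorem Below_sqrt {R : ℝ} (hR : R ≤ 5) : √(1 + R) ≤ 3 := by
  rw [Real.sqrt_le_left (by norm_num)]
  linarith

/-- no touching -/
theorem below {c C lam ρ G K T t₀ r : ℝ} (hann : AnnP d c C lam) (hc : 0 < c) (hc1 : c ≤ 1)
    (hC : 1 ≤ C) (hl : 0 < lam) (hl1 : lam ≤ 1) (hG : 1 ≤ G)
    (hK : 100 * G / (c * lam ^ 2) ≤ K) (hρ0 : 0 ≤ ρ) (hρ1 : ρ ≤ lam / 2)
    (hρ2 : d * ρ ^ 2 * (C * (10 / lam) ^ 2) / (2 * lam) ≤ c * lam / 4) (hr : 0 < r)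
    (h0 : r ^ 2 < t₀) (h1 : t₀ < T) {v₀ : Vec d}
    {A : ℝ → Vec d → Vec d → Fin d → Fin d → ℝ} {u : ℝ → Vec d → Vec d → ℝ}
    (hE : KEq lam ρ G T t₀ r v₀ A u) :
    ∀ t ∈ Ioc (t₀ - r ^ 2) t₀, ∀ (k : ℕ) (x v y w : Vec d), len (v - v₀) ≤ r →
      len (w - v₀) ≤ r → u t x v - u t y w ≤ Ph be (10 / lam) K r (t₀ - r ^ 2) v₀ k t x v y w := by
  intro ta hta ka xa va ya wa hva hwa
  by_contra hcon
  rw [not_le] at hcon
  have hcl : 0 < c * lam ^ 2 := by positivity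
  have hKp : 0 < K := lt_of_lt_of_le (by positivity) hK
  have hκ : 0 < 10 / lam := by positivity
  obtain ⟨t, ht, k, x, v, y, w, hv, hw, heq, hle⟩ := touch hE.c2 hE.per hr h0 h1 hE.bd hκ hKp
    ⟨ta, hta, ka, xa, va, ya, wa, hva, hwa, hcon.le⟩
  obtain ⟨t₁, ht₁⟩ : ∃ t₁ : ℝ, t₁ = t₀ - r ^ 2 := ⟨_, rfl⟩
  rw [← ht₁] at ht heq hle
  have htI : t ∈ Icc (t₀ - r ^ 2) t₀ := by rw [← ht₁]; exact ⟨ht.1.le, ht.2⟩
  have htT : t ∈ Ioo 0 T := ⟨by linarith [htI.1], by linarith [ht.2]⟩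
  have hr2 : 0 < r ^ 2 := by positivity
  obtain ⟨τ, hτd⟩ : ∃ τ : ℝ, τ = (t - t₁) / r ^ 2 := ⟨_, rfl⟩
  have hτ : 0 < τ := by rw [hτd]; exact div_pos (by linarith [ht.1]) hr2
  have hτ1 : τ ≤ 1 := by rw [hτd, div_le_one hr2]; linarith [ht.2]
  obtain ⟨κ, hκd⟩ : ∃ κ : ℝ, κ = 10 / lam := ⟨_, rfl⟩
  rw [← hκd] at heq hle hκ
  obtain ⟨Z, hZ⟩ : ∃ Z : Vec d, Z = Zk r k (x - y) := ⟨_, rfl⟩
  obtain ⟨W, hW⟩ : ∃ W : Vec d, W = Wk r k (v - w) := ⟨_, rfl⟩
  obtain ⟨Q, hQ⟩ : ∃ Q : Vec d, Q = Z - κ • W := ⟨_, rfl⟩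
  obtain ⟨g, hg⟩ : ∃ g : ℝ, g = GG be Z Q := ⟨_, rfl⟩
  have hgk : Gk be κ r k (x - y) (v - w) = g := by rw [Gk, ← hZ, ← hW, ← hQ, hg]
  have hg1 : 1 ≤ g := by rw [hg]; exact one_le_GG Z Q
  obtain ⟨S, hS⟩ : ∃ S : ℝ, S = K / τ * (1 / 2) ^ k := ⟨_, rfl⟩
  have hSp : 0 < S := by rw [hS]; positivity
  obtain ⟨E₀, hE₀⟩ : ∃ E₀ : ℝ, E₀ = 3 / r ^ 2 * (nsq (v - v₀) + nsq (w - v₀)) := ⟨_, rfl⟩
  have hE₀p : 0 ≤ E₀ := by
    rw [hE₀]
    have := nsq_nn (v - v₀)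
    have := nsq_nn (w - v₀)
    positivity
  have hPh : ∀ k' : ℕ, Ph be κ K r t₁ v₀ k' t x v y w =
      K / τ * (1 / 2) ^ k' * Gk be κ r k' (x - y) (v - w) + E₀ := by
    intro k'
    rw [Ph, Bk, ← hτd, ← hE₀]
  have hD2 : u t x v - u t y w ≤ 2 := by
    have h2 := (abs_le.1 (hE.bd t htI x v hv.le)).2
    have h3 := (abs_le.1 (hE.bd t htI y w hw.le)).1
    linarith
  have hB2 : S * g ≤ 2 := by
    have h2 := hPh k
    rw [← heq, hgk, ← hS] at h2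
    linarith
  have hK2 : 2 < K := by
    have h3 : 100 ≤ 100 * G / (c * lam ^ 2) := by
      rw [le_div_iff₀ hcl]
      have : c * lam ^ 2 ≤ 1 := by nlinarith [pow_le_one₀ hl.le hl1 (n := 2), pow_pos hl 2]
      nlinarith
    linarith
  -- the scale is not the first one
  have hk : k ≠ 0 := by
    intro hk0
    rw [hk0, pow_zero, mul_one] at hS
    have h3 : K ≤ S := by
      rw [hS, le_div_iff₀ hτ]
      nlinarith
    nlinarith
  obtain ⟨k', rfl⟩ : ∃ k' : ℕ, k = k' + 1 := ⟨k - 1, by omega⟩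
  have hKτ : 0 < K / τ := by positivity
  -- the annulus
  have hlo : 1 / 3000 ≤ RR be Z Q := by
    rw [hQ, hZ, hW]
    refine sc_lo (k' + 1) (x - y) (v - w) ?_
    have h2 := hle t ⟨ht.1, le_rfl⟩ (k' + 1 + 1) x v y w hv.le hw.le
    rw [heq, hPh, hPh] at h2
    have h3 : K / τ * ((1 / 2) ^ (k' + 1) * Gk be κ r (k' + 1) (x - y) (v - w)) ≤
        K / τ * ((1 / 2) ^ (k' + 1 + 1) * Gk be κ r (k' + 1 + 1) (x - y) (v - w)) := by linarith
    exact le_of_mul_le_mul_left h3 hKτ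
  have hhi : RR be Z Q ≤ 5 := by
    rw [hQ, hZ, hW]
    refine sc_hi k' (x - y) (v - w) ?_
    have h2 := hle t ⟨ht.1, le_rfl⟩ k' x v y w hv.le hw.le
    rw [heq, hPh, hPh] at h2
    have h3 : K / τ * ((1 / 2) ^ (k' + 1) * Gk be κ r (k' + 1) (x - y) (v - w)) ≤
        K / τ * ((1 / 2) ^ k' * Gk be κ r k' (x - y) (v - w)) := by linarith
    exact le_of_mul_le_mul_left h3 hKτ
  have hg3 : g ≤ 3 := by rw [hg]; exact Below_sqrt hhi
  have hne : Z ≠ 0 ∨ Q ≠ 0 := by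
    by_contra hn
    rw [not_or, not_not, not_not] at hn
    rw [hn.1, hn.2] at hlo
    have h2 := RR_le be_pos.le (0 : Vec d) 0
    have h3 : len (0 : Vec d) = 0 := by simp [len, nsq]
    rw [h3, mul_zero, mul_zero, add_zero] at h2
    linarith
  have hn1 : 0 < nm be Z Q := nm_pos be_pos hne
  have hn2 : 0 < nm be Q Z := nm_pos be_pos hne.symm
  obtain ⟨hup, hcase⟩ := hann Z Q hlo hhi
  obtain ⟨M, hM⟩ : ∃ M : ℝ, M = S * (256 ^ (k' + 1) / r ^ 2) := ⟨_, rfl⟩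
  have hMp : 0 < M := by rw [hM]; positivity
  obtain ⟨D₁, hD₁⟩ : ∃ D₁ : ℝ, D₁ = G1 be Z Q ((lam / 10) • (Q - Z)) ((lam / 10) • (Q - Z)) :=
    ⟨_, rfl⟩
  rw [← hD₁] at hcase
  -- the first derivative
  have htr : -(S * g / (t - t₁)) - M * D₁ ≤ transport u t x v - transport u t y w := by
    have e1 := Ph_tr (lam := lam) (K := K) (t₁ := t₁) (v₀ := v₀) (k := k' + 1) (x := x) (v := v) (y := y)
      (w := w) hr hl ht.1 (by rw [← hκd, ← hZ, ← hW, ← hQ]; exact hn1)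
      (by rw [← hκd, ← hZ, ← hW, ← hQ]; exact hn2)
    rw [← hκd, ← hZ, ← hW, ← hQ, ← hτd, ← hS, ← hM, ← hD₁, Bk, hgk, ← hS] at e1
    have e2 := ((tr_deriv hE.c2 htT x v).sub (tr_deriv hE.c2 htT y w)).sub e1
    have e3 := fdt e2 (by
      show u (t + 0) (x + (0 : ℝ) • v) v - u (t + 0) (y + (0 : ℝ) • w) w -
        Ph be κ K r t₁ v₀ (k' + 1) (t + 0) (x + (0 : ℝ) • v) v (y + (0 : ℝ) • w) w = 0
      rw [add_zero, zero_smul, add_zero, zero_smul, add_zero, heq, sub_self]) (by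
      filter_upwards [Ioo_mem_nhdsGT (show (0 : ℝ) < t - t₁ by linarith [ht.1])] with s hs
      have h2 := hle (t + -s) ⟨by linarith [hs.2], by linarith [hs.1]⟩ (k' + 1) (x + (-s) • v) v
        (y + (-s) • w) w hv.le hw.le
      show u (t + -s) (x + (-s) • v) v - u (t + -s) (y + (-s) • w) w -
        Ph be κ K r t₁ v₀ (k' + 1) (t + -s) (x + (-s) • v) v (y + (-s) • w) w ≤ 0
      linarith)
    linarith
  -- the second derivatives
  obtain ⟨X, hX⟩ : ∃ X : Fin d → Fin d → ℝ, X = fun i j => pd i (pd j (u t x)) v := ⟨_, rfl⟩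
  obtain ⟨Y, hY⟩ : ∃ Y : Fin d → Fin d → ℝ, Y = fun i j => pd i (pd j (u t y)) w := ⟨_, rfl⟩
  have hcx := slice_c2 hE.c2 htT x
  have hcy := slice_c2 hE.c2 htT y
  have hvv : ∀ p q : Vec d, qf X p - qf Y q ≤ M * G2 be Z Q (κ • (p - q)) +
      6 / r ^ 2 * (nsq p + nsq q) := by
    intro p q
    obtain ⟨g', e1, e2⟩ := Ph_vv (κ := κ) (K := K) (r := r) (t₁ := t₁) (v₀ := v₀) (k := k' + 1) (t := t)
      (x := x) (v := v) (y := y) (w := w) (by rw [← hZ, ← hW, ← hQ]; exact hn1)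
      (by rw [← hZ, ← hW, ← hQ]; exact hn2) p q
    rw [← hZ, ← hW, ← hQ, ← hτd, ← hS, ← hM] at e2
    have a2 := ((line2 hcx v p).sub (line2 hcy w q)).sub e2
    have hev : ∀ᶠ ε in 𝓝 (0 : ℝ), len (v + ε • p - v₀) ≤ r ∧ len (w + ε • q - v₀) ≤ r := by
      have hcl : ∀ a b : Vec d, len (a - v₀) < r → ∀ᶠ ε in 𝓝 (0 : ℝ), len (a + ε • b - v₀) ≤ r := by
        intro a b hab
        have hcont : Continuous fun ε : ℝ => len (a + ε • b - v₀) := by
          unfold len nsq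
          fun_prop
        have h5 := hcont.tendsto 0
        simp only [zero_smul, add_zero] at h5
        exact (h5.eventually (gt_mem_nhds hab)).mono fun ε hε => hε.le
      exact (hcl v p hv).and (hcl w q hw)
    have a3 : IsLocalMax (fun ε : ℝ => u t x (v + ε • p) - u t y (w + ε • q) -
        Ph be κ K r t₁ v₀ (k' + 1) t x (v + ε • p) y (w + ε • q)) 0 := by
      filter_upwards [hev] with ε hε
      have h5 := hle t ⟨ht.1, le_rfl⟩ (k' + 1) x (v + ε • p) y (w + ε • q) hε.1 hε.2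
      simp only [zero_smul, add_zero]
      linarith
    have a4 : ∀ᶠ ε in 𝓝 (0 : ℝ), HasDerivAt (fun ε : ℝ => u t x (v + ε • p) - u t y (w + ε • q) -
        Ph be κ K r t₁ v₀ (k' + 1) t x (v + ε • p) y (w + ε • q))
        ((∑ j, p j * pd j (u t x) (v + ε • p)) - (∑ j, q j * pd j (u t y) (w + ε • q)) - g' ε) ε :=
      e1.mono fun ε hε => ((line1 hcx v p ε).sub (line1 hcy w q ε)).sub hε
    have a5 := sdt a4 a2 a3
    rw [hX, hY]
    linarith
  have hqneg : ∀ e : Vec d, qf Y (-e) = qf Y e := by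
    intro e
    unfold qf
    simp
  have hbp : 0 < M * (C * κ ^ 2) := by positivity
  have hupp : ∀ p q : Vec d, qf X p - qf Y q ≤ M * (C * κ ^ 2) * nsq (p - q) +
      6 / r ^ 2 * (nsq p + nsq q) := by
    intro p q
    have h2 := hvv p q
    have h3 := mul_le_mul_of_nonneg_left (hup (κ • (p - q))) hMp.le
    rw [nsq_smul] at h3
    linarith
  have hsx : ∀ i j, X i j = X j i := fun i j => by rw [hX]; exact hess_symm hcx v i j
  have hsy : ∀ i j, Y i j = Y j i := fun i j => by rw [hY]; exact hess_symm hcy w i j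
  have hmis : d * ρ ^ 2 * (M * (C * κ ^ 2)) / (2 * lam) ≤ M * (c * lam / 4) := by
    have h3 := mul_le_mul_of_nonneg_left hρ2 hMp.le
    rw [← hκd] at h3
    refine le_trans (le_of_eq ?_) h3
    ring
  have htrA : 6 / r ^ 2 * (∑ i, A t x v i i + ∑ i, A t y w i i) ≤ 12 / lam / r ^ 2 := by
    have h2 := hE.upp t htI x v hv.le
    have h3 := hE.upp t htI y w hw.le
    calc 6 / r ^ 2 * (∑ i, A t x v i i + ∑ i, A t y w i i) ≤ 6 / r ^ 2 * (1 / lam + 1 / lam) :=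
          mul_le_mul_of_nonneg_left (by linarith) (by positivity)
      _ = 12 / lam / r ^ 2 := by ring
  have hx := (abs_le.1 (hE.eqn t htI x v hv.le)).2
  have hy := (abs_le.1 (hE.eqn t htI y w hw.le)).1
  rw [← hX] at hx
  rw [← hY] at hy
  have hfin : M * (c * lam * (3 / 4)) ≤ S * g / (t - t₁) + 12 / lam / r ^ 2 + 2 * G / r ^ 2 := by
    rcases hcase with hca | ⟨e, he, hca⟩
    · have hm := mat_loc (lam := 2 * lam) (E := 6 / r ^ 2) (by linarith) hρ0 (by linarith) hbp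
        (hE.sym t htI x v hv.le) (hE.sym t htI y w hw.le) hsx hsy (hE.low t htI y w hw.le)
        (hE.osc t htI x v y w hv.le hw.le) hupp
      have h4 : d * ρ ^ 2 * (M * (C * κ ^ 2)) / (2 * (2 * lam)) ≤
          d * ρ ^ 2 * (M * (C * κ ^ 2)) / (2 * lam) :=
        div_le_div_of_nonneg_left (by positivity) (by positivity) (by linarith)
      have h5 := mul_le_mul_of_nonneg_left hca hMp.le
      have h6 : M * -D₁ ≤ S * g / (t - t₁) + (transport u t x v - transport u t y w) := by linarith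
      have h7 : 2 * G / r ^ 2 = G / r ^ 2 + G / r ^ 2 := by ring
      linarith
    · have hr1 : qf X e - qf Y e ≤ 4 * M * G2 be Z Q (κ • e) + 2 * (6 / r ^ 2) := by
        have h2 := hvv e (-e)
        rw [hqneg] at h2
        have h3 : κ • (e - -e) = (2 : ℝ) • (κ • e) := by
          rw [sub_neg_eq_add, ← two_smul ℝ e, smul_comm]
        have h4 : nsq (-e) = nsq e := by unfold nsq; simp
        rw [h3, G2_smul, h4, he] at h2
        linarith
      have hm := mat_refl (lam := lam) (E := 6 / r ^ 2) (h₁ := 4 * M * G2 be Z Q (κ • e)) hl hρ0 hρ1 hbp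
        (by positivity) (hE.sym t htI x v hv.le) (hE.sym t htI y w hw.le) hsx hsy
        (hE.low t htI y w hw.le) (hE.osc t htI x v y w hv.le hw.le) hupp he hr1
      rw [← hκd] at hca
      have h5 := mul_le_mul_of_nonneg_left hca hMp.le
      have h7 : 2 * G / r ^ 2 = G / r ^ 2 + G / r ^ 2 := by ring
      have h8 : lam * (4 * M * G2 be Z Q (κ • e)) = M * (4 * lam * G2 be Z Q (κ • e)) := by ring
      rw [h8] at hm
      have h9 : M * (-D₁ - 4 * lam * G2 be Z Q (κ • e)) =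
        M * -D₁ - M * (4 * lam * G2 be Z Q (κ • e)) := by ring
      rw [h9] at h5
      linarith
  -- the numbers
  have htt : t - t₁ = τ * r ^ 2 := by rw [hτd]; field_simp
  rw [htt] at hfin
  have hfin2 : S * (2 ^ (k' + 1)) ^ 8 * (c * lam * (3 / 4)) ≤ S * g / τ + 12 / lam + 2 * G := by
    have h3 := mul_le_mul_of_nonneg_right hfin hr2.le
    rw [hM] at h3
    have e1 : ((2 : ℝ) ^ (k' + 1)) ^ 8 = 256 ^ (k' + 1) := by
      rw [← pow_mul, mul_comm, pow_mul]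
      norm_num
    rw [e1]
    refine le_trans (le_of_eq ?_) (h3.trans (le_of_eq ?_))
    · field_simp
    · field_simp
  refine num hc hc1 hl hl1 hG hK hτ hτ1 hg1 hg3 (one_le_pow₀ (by norm_num) : (1 : ℝ) ≤ 2 ^ (k' + 1)) ?_ hB2
    hfin2
  rw [hS, mul_assoc, ← mul_pow]
  norm_num

end Pool.Agent.H15.KM
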