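import Pool.Agent.H25.Kin.BDefs

/-!
# Kinetic modulus of continuity for local diffusions (Landau case of MP_c15324_an): definitions

THEOREM (Fin.lean). Let `(∂_t + v·∇_x) u = A_ij ∂_ij u + g` on a cylinder `[t₀-r², t₀] × ℝ^d × B(v₀,r)`, `|u| ≤ 1`, `|g| ≤ G/r²`, `A` elliptic with a SMALL oscillation `|A(t,x,v) - A(t,y,w)|`.
Then `|u(t₀,x,v₀) - u(t₀,y,w)| ≤ η` for `|x-y| ≤ c r³`, `|w-v₀| ≤ c r`.

PROOF. Doubling of the variables, `D = u(t,x,v) - u(t,y,w) ≤ Φ_k = B_k(x-y, v-w) + 3 r⁻² (|v-v₀|² + |w-v₀|²)` for ALL scales `ℓ = 16^(-k)`, where, with `τ = (t-t₀+r²)/r²`,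
`B_k = (K/τ) 2^(-k) G(R(Z, Z - κW))`, `Z = 4096^k (x-y)/r³`, `W = 16^k (v-w)/r`, `G(R) = √(1+R)`, `R(Z,Q) = 2√(|Z|²+β²|Q|²) + √(|Q|²+β²|Z|²)`.
At a first touching point of `D` with `Φ_k` the inequalities `B_k ≤ B_(k±1)` hold, hence `1/3000 ≤ R ≤ 5` (module Sc). There either the transport term or the second derivative in
the direction `Q` (reflection coupling) has the good sign (module Ann), the difference of the matrices `A` costs little (module Mat), all other terms are small for large `K`.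
-/

set_option autoImplicit false

open MeasureTheory Set Filter Topology Pool.Agent.H25.Kin

namespace Pool.Agent.H15.KM

variable {d : ℕ}

/-- `√(|Z|² + β²|Q|²)` -/
noncomputable def nm (β : ℝ) (Z Q : Vec d) : ℝ := √(nsq Z + β ^ 2 * nsq Q)

/-- `R(Z,Q)` -/
noncomputable def RR (β : ℝ) (Z Q : Vec d) : ℝ := 2 * nm β Z Q + nm β Q Z

/-- the first derivative of `R` in the direction `(a, b)` -/
noncomputable def R1 (β : ℝ) (Z Q a b : Vec d) : ℝ :=
  2 * ((dot Z a + β ^ 2 * dot Q b) / nm β Z Q) + (dot Q b + β ^ 2 * dot Z a) / nm β Q Z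

/-- the second derivative of `R` in the direction `(0, b)` -/
noncomputable def R2 (β : ℝ) (Z Q b : Vec d) : ℝ :=
  2 * ((β ^ 2 * nsq b - (β ^ 2 * dot Q b / nm β Z Q) ^ 2) / nm β Z Q) +
    (nsq b - (dot Q b / nm β Q Z) ^ 2) / nm β Q Z

/-- `G = √(1+R)` -/
noncomputable def GG (β : ℝ) (Z Q : Vec d) : ℝ := √(1 + RR β Z Q)

/-- the first derivative of `G` in the direction `(a, b)` -/
noncomputable def G1 (β : ℝ) (Z Q a b : Vec d) : ℝ := R1 β Z Q a b / (2 * GG β Z Q)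

/-- the second derivative of `G` in the direction `(0, b)` -/
noncomputable def G2 (β : ℝ) (Z Q b : Vec d) : ℝ :=
  R2 β Z Q b / (2 * GG β Z Q) - R1 β Z Q 0 b ^ 2 / (4 * GG β Z Q ^ 3)

/-- scaled positions -/
noncomputable def Zk (r : ℝ) (k : ℕ) (z : Vec d) : Vec d := ((4096 : ℝ) ^ k / r ^ 3) • z

/-- scaled velocities -/
noncomputable def Wk (r : ℝ) (k : ℕ) (w : Vec d) : Vec d := ((16 : ℝ) ^ k / r) • w

/-- `G` at the scale `k` -/
noncomputable def Gk (β κ r : ℝ) (k : ℕ) (z w : Vec d) : ℝ := GG β (Zk r k z) (Zk r k z - κ • Wk r k w)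

/-- the barrier of the scale `k` -/
noncomputable def Bk (β κ K r τ : ℝ) (k : ℕ) (z w : Vec d) : ℝ := K / τ * (1 / 2) ^ k * Gk β κ r k z w

/-- the barrier with localisation in the velocities; `t₁ = t₀ - r²` -/
noncomputable def Ph (β κ K r t₁ : ℝ) (v₀ : Vec d) (k : ℕ) (t : ℝ) (x v y w : Vec d) : ℝ :=
  Bk β κ K r ((t - t₁) / r ^ 2) k (x - y) (v - w) + 3 / r ^ 2 * (nsq (v - v₀) + nsq (w - v₀))

/-- the quadratic form of a matrix -/
def qf (A : Fin d → Fin d → ℝ) (ξ : Vec d) : ℝ := ∑ i, ∑ j, A i j * ξ i * ξ j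

/-- `∑ A_ij X_ij` -/
def trp (A X : Fin d → Fin d → ℝ) : ℝ := ∑ i, ∑ j, A i j * X i j

end Pool.Agent.H15.KM
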