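import Pool.Agent.H15.KM.Nm

/-!
# Module Der: derivatives of `GG` along lines

`nm β (Z+τa) (Q+τb) = √(P(τ))`, `P` a quadratic polynomial with `P(0) > 0`; `nsq (Z + τ • a) = nsq Z + 2τ dot Z a + τ² nsq a`. `HasDerivAt.sqrt`. For the second derivative:
`d/dε [β² dot (Q+εb) b / nm β Z (Q+εb)] = (β² nsq b - (β² dot Q b/nm)²)/nm`; quotient rule.
-/

set_option autoImplicit false

open MeasureTheory Set Filter Topology Pool.Agent.H25.Kin

namespace Pool.Agent.H15.KM

variable {d : ℕ}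

private theorem Der_dot_line (Z a b : Vec d) (τ : ℝ) : dot (Z + τ • a) b = dot Z b + τ * dot a b := by
  unfold dot
  rw [Finset.mul_sum, ← Finset.sum_add_distrib]
  exact Finset.sum_congr rfl fun i _ => by
    simp only [Pi.add_apply, Pi.smul_apply, smul_eq_mul]
    ring

private theorem Der_dot_zero (Z : Vec d) : dot Z 0 = 0 := by
  unfold dot
  simp

private theorem Der_dot_smul (Z a : Vec d) (τ : ℝ) : dot Z (τ • a) = τ * dot Z a := by
  unfold dot
  rw [Finset.mul_sum]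
  exact Finset.sum_congr rfl fun i _ => by
    simp only [Pi.smul_apply, smul_eq_mul]
    ring

private theorem Der_nsq_line (Z a : Vec d) (τ : ℝ) :
    nsq (Z + τ • a) = nsq Z + 2 * (τ * dot Z a) + τ ^ 2 * nsq a := by
  rw [nsq_add, nsq_smul, Der_dot_smul]

private theorem Der_nm_line {β : ℝ} {Z Q a b : Vec d} {s : ℝ} (h : 0 < nm β (Z + s • a) (Q + s • b)) :
    HasDerivAt (fun τ : ℝ => nm β (Z + τ • a) (Q + τ • b))
      ((dot (Z + s • a) a + β ^ 2 * dot (Q + s • b) b) / nm β (Z + s • a) (Q + s • b)) s := by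
  have hP : HasDerivAt (fun τ : ℝ => nsq (Z + τ • a) + β ^ 2 * nsq (Q + τ • b))
      (2 * (dot (Z + s • a) a + β ^ 2 * dot (Q + s • b) b)) s := by
    have h1 : (fun τ : ℝ => nsq (Z + τ • a) + β ^ 2 * nsq (Q + τ • b)) =
        fun τ : ℝ => (nsq Z + β ^ 2 * nsq Q) + τ * (2 * (dot Z a + β ^ 2 * dot Q b)) +
          τ ^ 2 * (nsq a + β ^ 2 * nsq b) := by
      funext τ
      rw [Der_nsq_line, Der_nsq_line]
      ring
    rw [h1]
    have h2 := (((hasDerivAt_id s).mul_const (2 * (dot Z a + β ^ 2 * dot Q b))).const_add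
      (nsq Z + β ^ 2 * nsq Q)).add ((hasDerivAt_pow 2 s).mul_const (nsq a + β ^ 2 * nsq b))
    refine h2.congr_deriv ?_
    rw [Der_dot_line, Der_dot_line, dot_self', dot_self']
    push_cast
    ring
  have hne : nsq (Z + s • a) + β ^ 2 * nsq (Q + s • b) ≠ 0 := (Real.sqrt_pos.1 h).ne'
  have h3 := hP.sqrt hne
  refine h3.congr_deriv ?_
  have h4 : √(nsq (Z + s • a) + β ^ 2 * nsq (Q + s • b)) = nm β (Z + s • a) (Q + s • b) := rfl
  rw [h4]
  have h5 := h.ne'
  field_simp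

private theorem Der_RR_line {β : ℝ} {Z Q a b : Vec d} {s : ℝ} (h1 : 0 < nm β (Z + s • a) (Q + s • b))
    (h2 : 0 < nm β (Q + s • b) (Z + s • a)) :
    HasDerivAt (fun τ : ℝ => RR β (Z + τ • a) (Q + τ • b)) (R1 β (Z + s • a) (Q + s • b) a b) s :=
  ((Der_nm_line h1).const_mul 2).add (Der_nm_line h2)

private theorem Der_GG_line {β : ℝ} {Z Q a b : Vec d} {s : ℝ} (h1 : 0 < nm β (Z + s • a) (Q + s • b))
    (h2 : 0 < nm β (Q + s • b) (Z + s • a)) :
    HasDerivAt (fun τ : ℝ => GG β (Z + τ • a) (Q + τ • b)) (G1 β (Z + s • a) (Q + s • b) a b) s := by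
  have h3 := (Der_RR_line h1 h2).const_add 1
  have h4 : (1 : ℝ) + RR β (Z + s • a) (Q + s • b) ≠ 0 := by
    have := RR_nn (β := β) (Z + s • a) (Q + s • b)
    linarith
  exact h3.sqrt h4

theorem GG_deriv {β : ℝ} {Z Q : Vec d} (h1 : 0 < nm β Z Q) (h2 : 0 < nm β Q Z) (a b : Vec d) :
    HasDerivAt (fun τ : ℝ => GG β (Z + τ • a) (Q + τ • b)) (G1 β Z Q a b) 0 := by
  have hZ : Z + (0 : ℝ) • a = Z := by rw [zero_smul, add_zero]
  have hQ : Q + (0 : ℝ) • b = Q := by rw [zero_smul, add_zero]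
  have h3 := Der_GG_line (β := β) (Z := Z) (Q := Q) (a := a) (b := b) (s := 0)
    (by rw [hZ, hQ]; exact h1) (by rw [hZ, hQ]; exact h2)
  rw [hZ, hQ] at h3
  exact h3

theorem GG_deriv_line {β : ℝ} {Z Q : Vec d} (h1 : 0 < nm β Z Q) (h2 : 0 < nm β Q Z) (b : Vec d) :
    (∀ᶠ ε in 𝓝 (0 : ℝ), HasDerivAt (fun τ : ℝ => GG β Z (Q + τ • b)) (G1 β Z (Q + ε • b) 0 b) ε) ∧
    HasDerivAt (fun ε : ℝ => G1 β Z (Q + ε • b) 0 b) (G2 β Z Q b) 0 := by
  have hQ : Q + (0 : ℝ) • b = Q := by rw [zero_smul, add_zero]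
  have hz : ∀ τ : ℝ, Z + τ • (0 : Vec d) = Z := fun τ => by rw [smul_zero, add_zero]
  -- the two norms along the line
  have hn1 : ∀ s : ℝ, 0 < nm β Z (Q + s • b) → HasDerivAt (fun τ : ℝ => nm β Z (Q + τ • b))
      (β ^ 2 * dot (Q + s • b) b / nm β Z (Q + s • b)) s := by
    intro s hs
    have h3 := Der_nm_line (β := β) (Z := Z) (Q := Q) (a := 0) (b := b) (s := s) (by rw [hz]; exact hs)
    simp only [hz, Der_dot_zero, zero_add] at h3
    exact h3
  have hn2 : ∀ s : ℝ, 0 < nm β (Q + s • b) Z → HasDerivAt (fun τ : ℝ => nm β (Q + τ • b) Z)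
      (dot (Q + s • b) b / nm β (Q + s • b) Z) s := by
    intro s hs
    have h3 := Der_nm_line (β := β) (Z := Q) (Q := Z) (a := b) (b := 0) (s := s) (by rw [hz]; exact hs)
    simp only [hz, Der_dot_zero, mul_zero, add_zero] at h3
    exact h3
  have hG : ∀ s : ℝ, 0 < nm β Z (Q + s • b) → 0 < nm β (Q + s • b) Z →
      HasDerivAt (fun τ : ℝ => GG β Z (Q + τ • b)) (G1 β Z (Q + s • b) 0 b) s := by
    intro s hs hs'
    have h3 := Der_GG_line (β := β) (Z := Z) (Q := Q) (a := 0) (b := b) (s := s)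
      (by rw [hz]; exact hs) (by rw [hz]; exact hs')
    simp only [hz] at h3
    exact h3
  have k1 : 0 < nm β Z (Q + (0 : ℝ) • b) := by rw [hQ]; exact h1
  have k2 : 0 < nm β (Q + (0 : ℝ) • b) Z := by rw [hQ]; exact h2
  refine ⟨?_, ?_⟩
  · have c1 := (hn1 0 k1).continuousAt
    have c2 := (hn2 0 k2).continuousAt
    filter_upwards [c1.tendsto.eventually (lt_mem_nhds k1), c2.tendsto.eventually (lt_mem_nhds k2)]
      with ε e1 e2
    exact hG ε e1 e2
  · have hd : HasDerivAt (fun τ : ℝ => dot (Q + τ • b) b) (nsq b) 0 := by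
      have h3 : (fun τ : ℝ => dot (Q + τ • b) b) = fun τ : ℝ => dot Q b + τ * nsq b := by
        funext τ
        rw [Der_dot_line, dot_self']
      rw [h3]
      have h4 := ((hasDerivAt_id (0 : ℝ)).mul_const (nsq b)).const_add (dot Q b)
      exact h4.congr_deriv (one_mul _)
    have d1 := hn1 0 k1
    have d2 := hn2 0 k2
    have d3 := hG 0 k1 k2
    have hR : HasDerivAt (fun ε : ℝ => R1 β Z (Q + ε • b) 0 b) (R2 β Z Q b) 0 := by
      have h3 := (((hd.const_mul (β ^ 2)).div d1 k1.ne').const_mul 2).add (hd.div d2 k2.ne')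
      have h4 : (fun ε : ℝ => R1 β Z (Q + ε • b) 0 b) = fun ε : ℝ =>
          2 * ((β ^ 2 * dot (Q + ε • b) b) / nm β Z (Q + ε • b)) + dot (Q + ε • b) b / nm β (Q + ε • b) Z := by
        funext ε
        unfold R1
        rw [Der_dot_zero, zero_add, mul_zero, add_zero]
      rw [h4]
      refine h3.congr_deriv ?_
      unfold R2
      rw [hQ]
      have e1 := h1.ne'
      have e2 := h2.ne'
      field_simp
    have hGp : 0 < GG β Z (Q + (0 : ℝ) • b) := lt_of_lt_of_le one_pos (one_le_GG _ _)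
    have h5 := hR.div (d3.const_mul 2) (mul_pos two_pos hGp).ne'
    refine h5.congr_deriv ?_
    have hGp' : 0 < GG β Z Q := lt_of_lt_of_le one_pos (one_le_GG _ _)
    unfold G2 G1
    rw [hQ]
    have e3 := hGp'.ne'
    field_simp
    ring

end Pool.Agent.H15.KM
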