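import Pool.Agent.H15.KM.Below

/-!
# Module Fin: the kinetic modulus of continuity
-/

set_option autoImplicit false

open MeasureTheory Set Filter Topology Pool.Agent.H25.Kin

namespace Pool.Agent.H15.KM

variable {d : ℕ}

/-- choice of the scale -/
private theorem Fin_scale {a : ℝ} (ha : 0 < a) (ha1 : a ≤ 1) :
    ∃ k : ℕ, (1 / 2 : ℝ) ^ k ≤ a ∧ a / 2 < (1 / 2 : ℝ) ^ k := by
  have hex : ∃ k : ℕ, (1 / 2 : ℝ) ^ k ≤ a := (exists_pow_lt_of_lt_one ha (by norm_num)).imp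
    fun k hk => hk.le
  classical
  refine ⟨Nat.find hex, Nat.find_spec hex, ?_⟩
  rcases Nat.eq_zero_or_pos (Nat.find hex) with h | h
  · rw [h, pow_zero]
    linarith
  · have h1 := Nat.find_min hex (m := Nat.find hex - 1) (by omega)
    rw [not_le] at h1
    have h2 : (1 / 2 : ℝ) ^ Nat.find hex = (1 / 2) ^ (Nat.find hex - 1) * (1 / 2) := by
      rw [← pow_succ]
      congr 1
      omega
    rw [h2]
    linarith

/-- the barrier at the final time is small for close points -/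
private theorem Fin_small {c lam G K η r : ℝ} (hc : 0 < c) (hc1 : c ≤ 1) (hl : 0 < lam) (hl1 : lam ≤ 1)
    (hG : 1 ≤ G) (hK : K = 100 * G / (c * lam ^ 2)) (hη : 0 < η) (hη1 : η ≤ 1) (hr : 0 < r)
    {c₀ : ℝ} (hc₀ : c₀ ≤ (c / 800) ^ 12 * (lam * η / G) ^ 24 / 40) (hc₀p : 0 ≤ c₀)
    {v₀ x y w : Vec d}
    (hz : len (x - y) ≤ c₀ * r ^ 3) (hw : len (w - v₀) ≤ c₀ * r) (t₁ t : ℝ) (ht : (t - t₁) / r ^ 2 = 1) :
    ∃ k : ℕ, Ph be (10 / lam) K r t₁ v₀ k t x v₀ y w ≤ η ∧ Ph be (10 / lam) K r t₁ v₀ k t y w x v₀ ≤ η := by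
  have hG0 : 0 < G := by linarith
  have hcl : 0 < c * lam ^ 2 := by positivity
  have hKp : 0 < K := by rw [hK]; positivity
  have hK1 : 1 ≤ K := by
    rw [hK, le_div_iff₀ hcl]
    have : c * lam ^ 2 ≤ 1 := by nlinarith [pow_le_one₀ hl.le hl1 (n := 2), pow_pos hl 2]
    nlinarith
  obtain ⟨a, ha⟩ : ∃ a : ℝ, a = η / (4 * K) := ⟨_, rfl⟩
  have hap : 0 < a := by rw [ha]; positivity
  have ha1 : a ≤ 1 := by
    rw [ha, div_le_one (by positivity)]
    linarith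
  obtain ⟨k, hk1, hk2⟩ := Fin_scale hap ha1
  obtain ⟨N, hN⟩ : ∃ N : ℝ, N = 2 ^ k := ⟨_, rfl⟩
  have hN0 : 0 < N := by rw [hN]; positivity
  have hNk : (1 / 2 : ℝ) ^ k = 1 / N := by rw [hN, one_div_pow]
  have hN1 : 1 ≤ N := by rw [hN]; exact one_le_pow₀ (by norm_num)
  rw [hNk] at hk1 hk2
  -- `N ≤ 2/a`
  have hNa : N ≤ 2 / a := by
    rw [le_div_iff₀ hap]
    rw [lt_div_iff₀ hN0] at hk2
    linarith
  obtain ⟨θ, hθ⟩ : ∃ θ : ℝ, θ = lam * η / G := ⟨_, rfl⟩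
  have hθ0 : 0 < θ := by rw [hθ]; positivity
  have hθ1 : θ ≤ 1 := by
    rw [hθ, div_le_one hG0]
    have : lam * η ≤ 1 := by nlinarith
    linarith
  have hNθ : N ≤ 800 / c / θ ^ 2 := by
    refine hNa.trans ?_
    rw [ha, hK, hθ]
    rw [div_div_eq_mul_div, div_le_iff₀ hη]
    have e1 : 800 / c / (lam * η / G) ^ 2 * η = 800 * G ^ 2 / (c * lam ^ 2 * η) := by
      field_simp
    rw [e1, le_div_iff₀ (by positivity)]
    have e2 : 2 * (4 * (100 * G / (c * lam ^ 2))) * (c * lam ^ 2 * η) = 800 * G * η := by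
      field_simp
      ring
    rw [e2]
    nlinarith [mul_pos hG0 hη]
  have hNc : N * (c / 800) * θ ^ 2 ≤ 1 := by
    calc N * (c / 800) * θ ^ 2 ≤ 800 / c / θ ^ 2 * (c / 800) * θ ^ 2 := by gcongr
      _ = 1 := by field_simp
  obtain ⟨m, hm⟩ : ∃ m : ℝ, m = c / 800 * θ ^ 2 := ⟨_, rfl⟩
  have hm0 : 0 < m := by rw [hm]; positivity
  have hNm : N * m ≤ 1 := by rw [hm]; linarith
  have hm1 : m ≤ 1 := by nlinarith
  have hc₀' : c₀ ≤ m ^ 12 / 40 := by
    refine hc₀.trans (le_of_eq ?_)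
    rw [hm, hθ]
    ring
  have hml : m ≤ lam / 40 := by
    rw [hm]
    have e1 : θ ^ 2 ≤ lam := by
      have e2 : θ ≤ lam := by
        rw [hθ, div_le_iff₀ hG0]
        nlinarith [mul_pos hl hη]
      nlinarith
    nlinarith
  have hq12 : N ^ 12 * c₀ ≤ 1 / 40 := by
    calc N ^ 12 * c₀ ≤ N ^ 12 * (m ^ 12 / 40) := mul_le_mul_of_nonneg_left hc₀' (by positivity)
      _ = (N * m) ^ 12 / 40 := by ring
      _ ≤ 1 / 40 := by
        have := pow_le_one₀ (by positivity : 0 ≤ N * m) hNm (n := 12)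
        linarith
  have hq4 : N ^ 4 * c₀ ≤ lam / 40 := by
    calc N ^ 4 * c₀ ≤ N ^ 4 * (m ^ 12 / 40) := mul_le_mul_of_nonneg_left hc₀' (by positivity)
      _ = (N * m) ^ 4 * m ^ 7 * m / 40 := by ring
      _ ≤ 1 * 1 * m / 40 := by
        have e1 := pow_le_one₀ (by positivity : 0 ≤ N * m) hNm (n := 4)
        have e2 := pow_le_one₀ hm0.le hm1 (n := 7)
        gcongr
      _ ≤ lam / 40 := by linarith
  have hc₀1 : 3 * c₀ ^ 2 ≤ η / 2 := by
    have e0 : c₀ ≤ m := hc₀'.trans (by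
      have : m ^ 12 ≤ m := pow_le_of_le_one hm0.le hm1 (by norm_num)
      linarith)
    have e1 : m ≤ η / 6 := by
      rw [hm]
      have e2 : θ ^ 2 ≤ η := by
        have e3 : θ ≤ η := by
          rw [hθ, div_le_iff₀ hG0]
          nlinarith [mul_pos hl hη]
        nlinarith
      nlinarith
    nlinarith
  have h16 : (16 : ℝ) ^ k = N ^ 4 := by rw [hN, ← pow_mul, mul_comm, pow_mul]; norm_num
  have h4096 : (4096 : ℝ) ^ k = N ^ 12 := by rw [hN, ← pow_mul, mul_comm, pow_mul]; norm_num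
  have hsym : ∀ a b : Vec d, len (a - b) = len (b - a) := fun a b => by
    rw [← neg_sub, len_neg]
  -- bound of the barrier
  have key : ∀ z w' : Vec d, len z ≤ c₀ * r ^ 3 → len w' ≤ c₀ * r →
      Bk be (10 / lam) K r 1 k z w' ≤ η / 2 := by
    intro z w' hz' hw'
    have hZ : len (Zk r k z) ≤ 1 / 40 := by
      rw [Zk, len_smul, abs_of_pos (by positivity), h4096]
      calc N ^ 12 / r ^ 3 * len z ≤ N ^ 12 / r ^ 3 * (c₀ * r ^ 3) :=
            mul_le_mul_of_nonneg_left hz' (by positivity)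
        _ = N ^ 12 * c₀ := by field_simp
        _ ≤ 1 / 40 := hq12
    have hW : len ((10 / lam) • Wk r k w') ≤ 1 / 4 := by
      rw [Wk, smul_smul, len_smul, abs_of_pos (by positivity), h16]
      calc 10 / lam * (N ^ 4 / r) * len w' ≤ 10 / lam * (N ^ 4 / r) * (c₀ * r) :=
            mul_le_mul_of_nonneg_left hw' (by positivity)
        _ = 10 / lam * (N ^ 4 * c₀) := by field_simp
        _ ≤ 10 / lam * (lam / 40) := mul_le_mul_of_nonneg_left hq4 (by positivity)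
        _ = 1 / 4 := by field_simp; norm_num
    have hQ : len (Zk r k z - (10 / lam) • Wk r k w') ≤ 11 / 40 :=
      (len_sub _ _).trans (by linarith)
    have hbe1 : be ≤ 1 := by unfold be; norm_num
    have hR : RR be (Zk r k z) (Zk r k z - (10 / lam) • Wk r k w') ≤ 3 := by
      have h3 := RR_le be_pos.le (Zk r k z) (Zk r k z - (10 / lam) • Wk r k w')
      have h4 := len_nn (Zk r k z)
      have h5 := len_nn (Zk r k z - (10 / lam) • Wk r k w')
      nlinarith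
    have hG : Gk be (10 / lam) r k z w' ≤ 2 := by
      unfold Gk GG
      rw [Real.sqrt_le_left (by norm_num)]
      linarith
    unfold Bk
    rw [div_one, hNk]
    calc K * (1 / N) * Gk be (10 / lam) r k z w' ≤ K * a * 2 := by
          have : 0 ≤ Gk be (10 / lam) r k z w' := (zero_le_one).trans (one_le_GG _ _)
          gcongr
      _ = η / 2 := by
          rw [ha]
          field_simp
          norm_num
  have hE : ∀ a b : Vec d, nsq (a - v₀) + nsq (b - v₀) ≤ (c₀ * r) ^ 2 →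
      3 / r ^ 2 * (nsq (a - v₀) + nsq (b - v₀)) ≤ η / 2 := by
    intro a b hab
    calc 3 / r ^ 2 * (nsq (a - v₀) + nsq (b - v₀)) ≤ 3 / r ^ 2 * (c₀ * r) ^ 2 :=
          mul_le_mul_of_nonneg_left hab (by positivity)
      _ = 3 * c₀ ^ 2 := by field_simp
      _ ≤ η / 2 := hc₀1
  have h00 : nsq (v₀ - v₀) = 0 := by simp [nsq]
  have hww : nsq (w - v₀) ≤ (c₀ * r) ^ 2 := by
    rw [← len_sq]
    exact pow_le_pow_left₀ (len_nn _) hw 2
  refine ⟨k, ?_, ?_⟩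
  · unfold Ph
    rw [ht]
    have h3 := key (x - y) (v₀ - w) hz (by rw [hsym]; exact hw)
    have h4 := hE v₀ w (by rw [h00, zero_add]; exact hww)
    linarith
  · unfold Ph
    rw [ht]
    have h3 := key (y - x) (w - v₀) (by rw [hsym]; exact hz) hw
    have h4 := hE w v₀ (by rw [h00, add_zero]; exact hww)
    linarith

/-- KINETIC MODULUS OF CONTINUITY -/
theorem kmod (d : ℕ) : ∃ C₀ : ℝ, 1 ≤ C₀ ∧ ∃ m₀ : ℕ, ∀ lam G η r : ℝ, 0 < lam → lam ≤ 1 → 1 ≤ G →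
    0 < η → η ≤ 1 → 0 < r → ∀ (T t₀ : ℝ) (v₀ : Vec d) (A : ℝ → Vec d → Vec d → Fin d → Fin d → ℝ)
    (u : ℝ → Vec d → Vec d → ℝ), r ^ 2 < t₀ → t₀ < T → KEq lam (lam ^ 2 / C₀) G T t₀ r v₀ A u →
    ∀ x y w : Vec d, len (x - y) ≤ (lam * η / G) ^ m₀ / C₀ * r ^ 3 →
      len (w - v₀) ≤ (lam * η / G) ^ m₀ / C₀ * r → |u t₀ x v₀ - u t₀ y w| ≤ η := by
  obtain ⟨c', C, hc', hC, hann⟩ := annulus (d := d)
  obtain ⟨c, hcd⟩ : ∃ c : ℝ, c = min c' 1 := ⟨_, rfl⟩
  have hc : 0 < c := by rw [hcd]; exact lt_min hc' one_pos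
  have hc1 : c ≤ 1 := by rw [hcd]; exact min_le_right _ _
  have hcc : c ≤ c' := by rw [hcd]; exact min_le_left _ _
  obtain ⟨C₀, hC₀⟩ : ∃ C₀ : ℝ, C₀ = 2 + 200 * (d + 1) * C / c + 40 * (800 / c) ^ 12 := ⟨_, rfl⟩
  have hdd : (0 : ℝ) ≤ d := Nat.cast_nonneg d
  have hCp : 0 < C := by linarith
  have hC₀2 : 2 ≤ C₀ := by
    rw [hC₀]
    have : 0 ≤ 200 * (d + 1) * C / c := by positivity
    have : 0 ≤ 40 * (800 / c) ^ 12 := by positivity
    linarith
  have hC₀a : 200 * (d + 1) * C / c ≤ C₀ := by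
    rw [hC₀]
    have : 0 ≤ 40 * (800 / c) ^ 12 := by positivity
    linarith
  have hC₀b : 40 * (800 / c) ^ 12 ≤ C₀ := by
    rw [hC₀]
    have : 0 ≤ 200 * (d + 1) * C / c := by positivity
    linarith
  have hC₀p : 0 < C₀ := by linarith
  refine ⟨C₀, by linarith, 24, fun lam G η r hl hl1 hG hη hη1 hr T t₀ v₀ A u h0 h1 hE x y w hz hw => ?_⟩
  have hG0 : 0 < G := by linarith
  have hannP : AnnP d c C lam := by
    intro Z Q h2 h3
    obtain ⟨h4, h5⟩ := hann lam hl hl1 Z Q h2 h3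
    have h6 : c * lam ≤ c' * lam := mul_le_mul_of_nonneg_right hcc hl.le
    refine ⟨h4, ?_⟩
    rcases h5 with h5 | ⟨e, he, h5⟩
    · exact Or.inl (h6.trans h5)
    · exact Or.inr ⟨e, he, h6.trans h5⟩
  have hρ0 : 0 ≤ lam ^ 2 / C₀ := by positivity
  have hρ1 : lam ^ 2 / C₀ ≤ lam / 2 := by
    rw [div_le_div_iff₀ hC₀p (by norm_num)]
    nlinarith
  have hρ2 : d * (lam ^ 2 / C₀) ^ 2 * (C * (10 / lam) ^ 2) / (2 * lam) ≤ c * lam / 4 := by
    have e1 : d * (lam ^ 2 / C₀) ^ 2 * (C * (10 / lam) ^ 2) / (2 * lam) =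
        lam * (50 * d * C / C₀ ^ 2) := by
      field_simp
      ring
    rw [e1]
    have e2 : 50 * d * C / C₀ ^ 2 ≤ c / 4 := by
      rw [div_le_div_iff₀ (by positivity) (by norm_num)]
      have e3 : 200 * (d + 1) * C ≤ C₀ * c := by rwa [div_le_iff₀ hc] at hC₀a
      have e4 : C₀ * c ≤ c * C₀ ^ 2 := by nlinarith [mul_pos hc hC₀p]
      nlinarith
    nlinarith
  have hb := below hannP hc hc1 hC hl hl1 hG le_rfl hρ0 hρ1 hρ2 hr h0 h1 hE
  have hr2 : 0 < r ^ 2 := by positivity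
  have htt : (t₀ - (t₀ - r ^ 2)) / r ^ 2 = 1 := by
    rw [sub_sub_cancel, div_self hr2.ne']
  have hc₀ : (lam * η / G) ^ 24 / C₀ ≤ (c / 800) ^ 12 * (lam * η / G) ^ 24 / 40 := by
    rw [div_le_div_iff₀ hC₀p (by norm_num)]
    have e1 : 40 ≤ (c / 800) ^ 12 * C₀ := by
      have e0 : c / 800 * (800 / c) = 1 := by field_simp
      calc (40 : ℝ) = (c / 800 * (800 / c)) ^ 12 * 40 := by rw [e0]; norm_num
        _ = (c / 800) ^ 12 * (40 * (800 / c) ^ 12) := by rw [mul_pow]; ring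
        _ ≤ (c / 800) ^ 12 * C₀ := mul_le_mul_of_nonneg_left hC₀b (by positivity)
    have e2 : 0 ≤ (lam * η / G) ^ 24 := by positivity
    nlinarith
  obtain ⟨k, hk1, hk2⟩ := Fin_small hc hc1 hl hl1 hG rfl hη hη1 hr hc₀ (by positivity) hz hw
    (t₀ - r ^ 2) t₀ htt
  have hv0 : len (v₀ - v₀) ≤ r := by
    have : len (v₀ - v₀) = 0 := by simp [len, nsq]
    rw [this]
    exact hr.le
  have hwr : len (w - v₀) ≤ r := by
    refine hw.trans ?_
    have e1 : (lam * η / G) ^ 24 / C₀ ≤ 1 := by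
      rw [div_le_one hC₀p]
      have e2 : lam * η / G ≤ 1 := by
        rw [div_le_one hG0]
        nlinarith
      have := pow_le_one₀ (by positivity) e2 (n := 24)
      linarith
    nlinarith
  have ht0 : t₀ ∈ Ioc (t₀ - r ^ 2) t₀ := ⟨by linarith, le_rfl⟩
  have a1 := (hb t₀ ht0 k x v₀ y w hv0 hwr).trans hk1
  have a2 := (hb t₀ ht0 k y w x v₀ hwr hv0).trans hk2
  rw [abs_le]
  exact ⟨by linarith, a1⟩

end Pool.Agent.H15.KM
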