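import Pool.Agent.H15.KM.Fin
import Pool.Agent.H48.LN.KMd

/-!
# The kinetic modulus in the form used in H48/LN
-/

set_option autoImplicit false

open MeasureTheory Set Filter Topology Pool.Agent.H25.Kin

namespace Pool.Agent.H15.KM

theorem kmod_all (d : ℕ) : Pool.Agent.H48.LN.KMod d := by
  obtain ⟨C₀, hC, m₀, h⟩ := kmod d
  refine ⟨C₀, hC, m₀, fun lam G η r T t₀ hl hl1 hG hη hη1 hr _ h0 h1 v₀ u A hc hp hb hA ho he x y w => ?_⟩
  have e1 : ∀ (M : Fin d → Fin d → ℝ) (ξ : Vec d), qf M ξ = ∑ i, ∑ j, M i j * (ξ i * ξ j) :=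
    fun M ξ => Finset.sum_congr rfl fun i _ => Finset.sum_congr rfl fun j _ => by ring
  refine h lam G η r hl hl1 hG hη hη1 hr T t₀ v₀ A u h0 h1 ⟨hc, hp, hb, fun t ht x v hv => (hA t ht x v hv).1,
    fun t ht x v hv ξ => ?_, fun t ht x v hv => (hA t ht x v hv).2.2, fun t ht x v y w hv hw ξ => ?_,
    fun t ht x v hv => he t ht x v hv⟩ x y w
  · rw [e1]
    exact (hA t ht x v hv).2.1 ξ
  · rw [e1, e1]
    exact ho t ht x v y w hv hw ξ

end Pool.Agent.H15.KM
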