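import Pool.Agent.H15.KM.Nm

/-!
# Module Mat: the coupling lemma for matrices

`X`, `Y` symmetric, `X[p,p] - Y[q,q] ≤ b |p-q|²` for all `p, q`, `A' ≥ lam`, `|A[ξ,ξ] - A'[ξ,ξ]| ≤ ρ |ξ|²`, `ρ ≤ lam/2`. Then `tr(A X) - tr(A' Y) ≤ d ρ² b/(2 lam)`.
Proof. Orthonormal eigenvectors `ξ_i` of `X`, eigenvalues `x_i` (`Matrix.IsHermitian`, over `ℝ`, or `LinearMap.IsSymmetric.eigenvectorBasis`); `x_i ≤ b` (`p = ξ_i`, `q = 0`).
`τ_i = x_i/b` if `0 ≤ x_i`, `τ_i = -|x_i|/(|x_i|+b)` if `x_i < 0`. `T = ∑ τ_i ξ_i ξ_iᵀ`. The form inequality with `p = (1+T)g`, `q = g` says that the symmetric matrix `M = Y + b T² - (1+T) X (1+T)` is `≥ 0`;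
`A' ≥ 0`, so `tr(A' M) ≥ 0` (write `A'` as a sum of squares, its own spectral theorem, or `Matrix.PosSemidef` trace lemma), i.e. `∑_i A'[ξ_i,ξ_i] (x_i (1+τ_i)² - b τ_i²) ≤ tr(A' Y)` and
`tr(A' X) = ∑_i x_i A'[ξ_i,ξ_i]`. `x_i (1+τ_i)² - x_i - b τ_i² ≥ min (x_i²/(2b)) (|x_i|/2) =: g_i ≥ 0`. `tr((A-A') X) = ∑ x_i (A-A')[ξ_i,ξ_i] ≤ ρ ∑ |x_i|`, and `ρ |x_i| ≤ lam g_i + ρ² b/(2 lam)`.
-/

set_option autoImplicit false

open MeasureTheory Set Filter Topology Pool.Agent.H25.Kin

namespace Pool.Agent.H15.KM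

variable {d : ℕ}

private theorem KMat_spec {X : Fin d → Fin d → ℝ} (hX : ∀ i j, X i j = X j i) :
    ∃ (x : Fin d → ℝ) (v : Fin d → Vec d), (∀ i j, X i j = ∑ k, x k * v k i * v k j) ∧
      (∀ i j, ∑ k, v k i * v k j = if i = j then 1 else 0) ∧
      (∀ k l, ∑ i, v k i * v l i = if k = l then 1 else 0) := by
  classical
  let M : Matrix (Fin d) (Fin d) ℝ := Matrix.of X
  have hM : M.IsHermitian := by
    ext i j
    simp [M, Matrix.conjTranspose_apply, hX j i]
  let U : Matrix (Fin d) (Fin d) ℝ := (hM.eigenvectorUnitary : Matrix (Fin d) (Fin d) ℝ)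
  have hU1 : U * star U = 1 := Unitary.mul_star_self_of_mem hM.eigenvectorUnitary.2
  have hU2 : star U * U = 1 := Unitary.star_mul_self_of_mem hM.eigenvectorUnitary.2
  refine ⟨hM.eigenvalues, fun k i => U i k, ?_, ?_, ?_⟩
  · intro i j
    have h1 : M = U * Matrix.diagonal hM.eigenvalues * star U := by
      have h2 := hM.spectral_theorem
      rw [Unitary.conjStarAlgAut_apply] at h2
      simpa [U, Function.comp_def] using h2
    have h3 : X i j = (U * Matrix.diagonal hM.eigenvalues * star U) i j :=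
      congrFun (congrFun h1 i) j
    rw [h3, Matrix.mul_apply]
    refine Finset.sum_congr rfl fun k _ => ?_
    rw [Matrix.mul_diagonal]
    simp only [Matrix.star_apply, star_trivial]
    ring
  · intro i j
    have h1 := congrFun (congrFun hU1 i) j
    rw [Matrix.mul_apply, Matrix.one_apply] at h1
    rw [← h1]
    refine Finset.sum_congr rfl fun k _ => ?_
    simp [Matrix.star_apply]
  · intro k l
    have h1 := congrFun (congrFun hU2 k) l
    rw [Matrix.mul_apply, Matrix.one_apply] at h1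
    rw [← h1]
    refine Finset.sum_congr rfl fun i _ => ?_
    simp [Matrix.star_apply]

private theorem KMat_trp {X : Fin d → Fin d → ℝ} {x : Fin d → ℝ} {v : Fin d → Vec d}
    (h : ∀ i j, X i j = ∑ k, x k * v k i * v k j) (A : Fin d → Fin d → ℝ) :
    trp A X = ∑ k, x k * qf A (v k) := by
  unfold trp qf
  calc ∑ i, ∑ j, A i j * X i j = ∑ i, ∑ j, ∑ k, A i j * (x k * v k i * v k j) := by
        refine Finset.sum_congr rfl fun i _ => Finset.sum_congr rfl fun j _ => ?_
        rw [h, Finset.mul_sum]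
    _ = ∑ i, ∑ k, ∑ j, A i j * (x k * v k i * v k j) :=
        Finset.sum_congr rfl fun i _ => Finset.sum_comm
    _ = ∑ k, ∑ i, ∑ j, A i j * (x k * v k i * v k j) := Finset.sum_comm
    _ = ∑ k, x k * ∑ i, ∑ j, A i j * v k i * v k j := by
        refine Finset.sum_congr rfl fun k _ => ?_
        rw [Finset.mul_sum]
        refine Finset.sum_congr rfl fun i _ => ?_
        rw [Finset.mul_sum]
        exact Finset.sum_congr rfl fun j _ => by ring

private theorem KMat_trp_comm (A X : Fin d → Fin d → ℝ) : trp A X = trp X A := by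
  unfold trp
  exact Finset.sum_congr rfl fun i _ => Finset.sum_congr rfl fun j _ => by ring

private theorem KMat_qf {X : Fin d → Fin d → ℝ} {x : Fin d → ℝ} {v : Fin d → Vec d}
    (h : ∀ i j, X i j = ∑ k, x k * v k i * v k j) (g : Vec d) :
    qf X g = ∑ k, x k * dot (v k) g ^ 2 := by
  have h1 : qf X g = trp (fun i j => g i * g j) X := by
    unfold qf trp
    exact Finset.sum_congr rfl fun i _ => Finset.sum_congr rfl fun j _ => by ring
  rw [h1, KMat_trp h]
  refine Finset.sum_congr rfl fun k _ => ?_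
  congr 1
  unfold qf dot
  rw [sq, Finset.sum_mul_sum]
  exact Finset.sum_congr rfl fun i _ => Finset.sum_congr rfl fun j _ => by ring

private theorem KMat_dot {v : Fin d → Vec d}
    (h3 : ∀ k l, ∑ i, v k i * v l i = if k = l then 1 else 0) (c : Fin d → ℝ) (k : Fin d) :
    dot (v k) (fun i => ∑ l, c l * v l i) = c k := by
  unfold dot
  calc ∑ i, v k i * ∑ l, c l * v l i = ∑ i, ∑ l, c l * (v k i * v l i) := by
        refine Finset.sum_congr rfl fun i _ => ?_
        rw [Finset.mul_sum]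
        exact Finset.sum_congr rfl fun l _ => by ring
    _ = ∑ l, ∑ i, c l * (v k i * v l i) := Finset.sum_comm
    _ = ∑ l, c l * ∑ i, v k i * v l i :=
        Finset.sum_congr rfl fun l _ => (Finset.mul_sum _ _ _).symm
    _ = c k := by simp [h3]

private theorem KMat_nsq {v : Fin d → Vec d}
    (h3 : ∀ k l, ∑ i, v k i * v l i = if k = l then 1 else 0) (c : Fin d → ℝ) :
    nsq (fun i => ∑ l, c l * v l i) = ∑ l, c l ^ 2 := by
  rw [← dot_self']
  unfold dot
  calc ∑ i, (∑ l, c l * v l i) * (∑ l, c l * v l i)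
      = ∑ i, ∑ l, c l * (v l i * ∑ m, c m * v m i) := by
        refine Finset.sum_congr rfl fun i _ => ?_
        rw [Finset.sum_mul]
        exact Finset.sum_congr rfl fun l _ => by ring
    _ = ∑ l, ∑ i, c l * (v l i * ∑ m, c m * v m i) := Finset.sum_comm
    _ = ∑ l, c l * dot (v l) (fun i => ∑ m, c m * v m i) := by
        refine Finset.sum_congr rfl fun l _ => ?_
        unfold dot
        rw [Finset.mul_sum]
    _ = ∑ l, c l ^ 2 := by
        refine Finset.sum_congr rfl fun l _ => ?_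
        rw [KMat_dot h3]
        ring

private theorem KMat_exp {v : Fin d → Vec d}
    (h2 : ∀ i j, ∑ k, v k i * v k j = if i = j then 1 else 0) (g : Vec d) :
    (fun i => ∑ l, dot (v l) g * v l i) = g := by
  funext i
  unfold dot
  calc ∑ l, (∑ j, v l j * g j) * v l i = ∑ l, ∑ j, g j * (v l i * v l j) := by
        refine Finset.sum_congr rfl fun l _ => ?_
        rw [Finset.sum_mul]
        exact Finset.sum_congr rfl fun j _ => by ring
    _ = ∑ j, ∑ l, g j * (v l i * v l j) := Finset.sum_comm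
    _ = ∑ j, g j * ∑ l, v l i * v l j :=
        Finset.sum_congr rfl fun j _ => (Finset.mul_sum _ _ _).symm
    _ = g i := by simp [h2]

private theorem KMat_one {lam ρ b x : ℝ} (hl : 0 < lam) (hρ0 : 0 ≤ ρ) (hρ : ρ ≤ lam / 2)
    (hb : 0 < b) (hx : x ≤ b) :
    ∃ t : ℝ, ρ * |x| - lam * (x * (1 + t) ^ 2 - b * t ^ 2 - x) ≤ ρ ^ 2 * b / (2 * lam) ∧
      0 ≤ x * (1 + t) ^ 2 - b * t ^ 2 - x := by
  rcases le_or_gt 0 x with h0 | h0
  · refine ⟨x / b, ?_, ?_⟩
    · have h1 : x * (1 + x / b) ^ 2 - b * (x / b) ^ 2 - x = x ^ 2 / b + x ^ 3 / b ^ 2 := by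
        field_simp
        ring
      have h2 : 0 ≤ x ^ 3 / b ^ 2 := by positivity
      rw [h1, abs_of_nonneg h0, le_div_iff₀ (by positivity)]
      have h4 : ρ * x * (2 * lam) - lam * (x ^ 2 / b) * (2 * lam) ≤ ρ ^ 2 * b := by
        have h5 : ρ ^ 2 * b - ρ * x * (2 * lam) + lam * (x ^ 2 / b) * (2 * lam)
            = (ρ * b - lam * x) ^ 2 / b + lam ^ 2 * x ^ 2 / b := by
          field_simp
          ring
        have h6 : 0 ≤ (ρ * b - lam * x) ^ 2 / b + lam ^ 2 * x ^ 2 / b := by positivity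
        linarith
      have h7 : 0 ≤ lam * (x ^ 3 / b ^ 2) * (2 * lam) := by positivity
      nlinarith
    · have h1 : x * (1 + x / b) ^ 2 - b * (x / b) ^ 2 - x = x ^ 2 / b + x ^ 3 / b ^ 2 := by
        field_simp
        ring
      rw [h1]
      positivity
  · obtain ⟨y, hy⟩ : ∃ y, y = -x := ⟨_, rfl⟩
    have hx' : x = -y := by linarith
    have hy0 : 0 < y := by linarith
    subst hx'
    have hyb : 0 < y + b := by linarith
    have h1 : -y * (1 + -(y / (y + b))) ^ 2 - b * (-(y / (y + b))) ^ 2 - -y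
        = y ^ 2 / (y + b) := by
      field_simp
      ring
    refine ⟨-(y / (y + b)), ?_, ?_⟩
    · rw [h1, abs_neg, abs_of_pos hy0]
      rcases le_or_gt y b with h2 | h2
      · have h3 : y ^ 2 / (2 * b) ≤ y ^ 2 / (y + b) :=
          div_le_div_of_nonneg_left (by positivity) hyb (by linarith)
        have h4 : lam * (y ^ 2 / (2 * b)) ≤ lam * (y ^ 2 / (y + b)) :=
          mul_le_mul_of_nonneg_left h3 hl.le
        refine (sub_le_sub_left h4 _).trans ?_
        have h5 : ρ ^ 2 * b / (2 * lam) - (ρ * y - lam * (y ^ 2 / (2 * b)))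
            = (ρ * b - lam * y) ^ 2 / (2 * lam * b) := by
          field_simp
          ring
        have h6 : 0 ≤ (ρ * b - lam * y) ^ 2 / (2 * lam * b) := by positivity
        linarith
      · have h3 : y / 2 ≤ y ^ 2 / (y + b) := by
          rw [div_le_div_iff₀ two_pos hyb]
          nlinarith
        have h4 : lam * (y / 2) ≤ lam * (y ^ 2 / (y + b)) := mul_le_mul_of_nonneg_left h3 hl.le
        have h5 : ρ * y ≤ lam / 2 * y := mul_le_mul_of_nonneg_right hρ hy0.le
        have h6 : 0 ≤ ρ ^ 2 * b / (2 * lam) := by positivity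
        linarith
    · rw [h1]
      positivity

theorem mat {lam ρ b : ℝ} (hl : 0 < lam) (hρ0 : 0 ≤ ρ) (hρ : ρ ≤ lam / 2) (hb : 0 < b)
    {A A' X Y : Fin d → Fin d → ℝ} (hA : ∀ i j, A i j = A j i) (hA' : ∀ i j, A' i j = A' j i)
    (hX : ∀ i j, X i j = X j i) (hY : ∀ i j, Y i j = Y j i)
    (hlow : ∀ ξ, lam * nsq ξ ≤ qf A' ξ) (hdif : ∀ ξ, |qf A ξ - qf A' ξ| ≤ ρ * nsq ξ)
    (h : ∀ p q : Vec d, qf X p - qf Y q ≤ b * nsq (p - q)) :
    trp A X - trp A' Y ≤ d * ρ ^ 2 * b / (2 * lam) := by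
  classical
  obtain ⟨x, v, hx1, hx2, hx3⟩ := KMat_spec hX
  obtain ⟨a, w, ha1, ha2, ha3⟩ := KMat_spec hA'
  have hv1 : ∀ k, nsq (v k) = 1 := fun k => by
    have h1 := hx3 k k
    rw [if_pos rfl] at h1
    rw [← h1]
    unfold nsq
    exact Finset.sum_congr rfl fun i _ => by ring
  have hw1 : ∀ k, nsq (w k) = 1 := fun k => by
    have h1 := ha3 k k
    rw [if_pos rfl] at h1
    rw [← h1]
    unfold nsq
    exact Finset.sum_congr rfl fun i _ => by ring
  have hqv : ∀ k, qf X (v k) = x k := fun k => by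
    rw [KMat_qf hx1]
    have h1 : ∀ l, dot (v l) (v k) = if l = k then 1 else 0 := fun l => hx3 l k
    simp [h1]
  have hqw : ∀ k, qf A' (w k) = a k := fun k => by
    rw [KMat_qf ha1]
    have h1 : ∀ l, dot (w l) (w k) = if l = k then 1 else 0 := fun l => ha3 l k
    simp [h1]
  have ha0 : ∀ k, 0 ≤ a k := fun k => by
    have h1 := hlow (w k)
    rw [hqw, hw1] at h1
    linarith
  have hxb : ∀ k, x k ≤ b := fun k => by
    have h1 := h (v k) 0
    have h2 : qf Y 0 = 0 := by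
      unfold qf
      simp
    rw [hqv, h2, sub_zero, sub_zero, hv1, mul_one] at h1
    exact h1
  choose t ht1 ht2 using fun k => KMat_one hl hρ0 hρ hb (hxb k)
  have hform : ∀ g : Vec d,
      ∑ k, (x k * (1 + t k) ^ 2 - b * t k ^ 2) * dot (v k) g ^ 2 ≤ qf Y g := by
    intro g
    have h1 := h (fun i => ∑ l, ((1 + t l) * dot (v l) g) * v l i) g
    have h2 : (fun i => ∑ l, ((1 + t l) * dot (v l) g) * v l i) - g
        = fun i => ∑ l, (t l * dot (v l) g) * v l i := by
      conv_lhs => rw [← KMat_exp hx2 g]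
      funext i
      simp only [Pi.sub_apply]
      rw [KMat_exp hx2 g, ← Finset.sum_sub_distrib]
      exact Finset.sum_congr rfl fun l _ => by ring
    rw [h2, KMat_nsq hx3, KMat_qf hx1] at h1
    simp only [KMat_dot hx3] at h1
    have h3 : ∑ k, (x k * (1 + t k) ^ 2 - b * t k ^ 2) * dot (v k) g ^ 2
        = ∑ k, x k * ((1 + t k) * dot (v k) g) ^ 2 - b * ∑ l, (t l * dot (v l) g) ^ 2 := by
      rw [Finset.mul_sum, ← Finset.sum_sub_distrib]
      exact Finset.sum_congr rfl fun l _ => by ring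
    rw [h3]
    linarith
  have hY' : trp A' Y = ∑ l, a l * qf Y (w l) := by
    rw [KMat_trp_comm, KMat_trp ha1]
  have hsum : ∑ k, (x k * (1 + t k) ^ 2 - b * t k ^ 2) * qf A' (v k) ≤ trp A' Y := by
    rw [hY']
    have h1 : ∑ k, (x k * (1 + t k) ^ 2 - b * t k ^ 2) * qf A' (v k)
        = ∑ l, a l * ∑ k, (x k * (1 + t k) ^ 2 - b * t k ^ 2) * dot (v k) (w l) ^ 2 := by
      have h2 : ∀ k, qf A' (v k) = ∑ l, a l * dot (v k) (w l) ^ 2 := fun k => by
        rw [KMat_qf ha1]
        refine Finset.sum_congr rfl fun l _ => ?_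
        have h3 : dot (w l) (v k) = dot (v k) (w l) := by
          unfold dot
          exact Finset.sum_congr rfl fun i _ => mul_comm _ _
        rw [h3]
      simp only [h2, Finset.mul_sum]
      rw [Finset.sum_comm]
      exact Finset.sum_congr rfl fun l _ => Finset.sum_congr rfl fun k _ => by ring
    rw [h1]
    exact Finset.sum_le_sum fun l _ => mul_le_mul_of_nonneg_left (hform (w l)) (ha0 l)
  have hk : ∀ k, x k * qf A (v k) - (x k * (1 + t k) ^ 2 - b * t k ^ 2) * qf A' (v k)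
      ≤ ρ ^ 2 * b / (2 * lam) := by
    intro k
    have h1 := hdif (v k)
    have h2 := hlow (v k)
    rw [hv1, mul_one] at h1 h2
    have h3 : x k * (qf A (v k) - qf A' (v k)) ≤ ρ * |x k| := by
      refine (le_abs_self _).trans ?_
      rw [abs_mul, mul_comm]
      exact mul_le_mul_of_nonneg_right h1 (abs_nonneg _)
    have h4 : lam * (x k * (1 + t k) ^ 2 - b * t k ^ 2 - x k)
        ≤ qf A' (v k) * (x k * (1 + t k) ^ 2 - b * t k ^ 2 - x k) :=
      mul_le_mul_of_nonneg_right h2 (ht2 k)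
    nlinarith [ht1 k]
  rw [KMat_trp hx1]
  calc ∑ k, x k * qf A (v k) - trp A' Y
      ≤ ∑ k, x k * qf A (v k) - ∑ k, (x k * (1 + t k) ^ 2 - b * t k ^ 2) * qf A' (v k) := by
        linarith
    _ = ∑ k, (x k * qf A (v k) - (x k * (1 + t k) ^ 2 - b * t k ^ 2) * qf A' (v k)) := by
        rw [Finset.sum_sub_distrib]
    _ ≤ ∑ _k : Fin d, ρ ^ 2 * b / (2 * lam) := Finset.sum_le_sum fun k _ => hk k
    _ = d * ρ ^ 2 * b / (2 * lam) := by
        rw [Finset.sum_const, Finset.card_univ, Fintype.card_fin, nsmul_eq_mul]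
        ring

private theorem KMat_qf_add (X : Fin d → Fin d → ℝ) (c : ℝ) (e g : Vec d) :
    qf (fun i j => X i j + c * (e i * e j)) g = qf X g + c * dot e g ^ 2 := by
  unfold qf dot
  rw [sq, Finset.sum_mul_sum, Finset.mul_sum, ← Finset.sum_add_distrib]
  refine Finset.sum_congr rfl fun i _ => ?_
  rw [Finset.mul_sum, ← Finset.sum_add_distrib]
  exact Finset.sum_congr rfl fun j _ => by ring

private theorem KMat_qf_id (X : Fin d → Fin d → ℝ) (c : ℝ) (g : Vec d) :
    qf (fun i j => X i j + c * (if i = j then 1 else 0)) g = qf X g + c * nsq g := by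
  unfold qf nsq
  rw [Finset.mul_sum, ← Finset.sum_add_distrib]
  refine Finset.sum_congr rfl fun i _ => ?_
  have h1 : c * g i ^ 2 = ∑ j, c * (if i = j then 1 else 0) * g i * g j := by
    simp [mul_assoc, sq]
  rw [h1, ← Finset.sum_add_distrib]
  exact Finset.sum_congr rfl fun j _ => by ring

private theorem KMat_trp_id (A X : Fin d → Fin d → ℝ) (c : ℝ) :
    trp A (fun i j => X i j + c * (if i = j then 1 else 0)) = trp A X + c * ∑ i, A i i := by
  unfold trp
  rw [Finset.mul_sum, ← Finset.sum_add_distrib]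
  refine Finset.sum_congr rfl fun i _ => ?_
  have h1 : c * A i i = ∑ j, A i j * (c * (if i = j then 1 else 0)) := by
    simp [mul_comm]
  rw [h1, ← Finset.sum_add_distrib]
  exact Finset.sum_congr rfl fun j _ => by ring

private theorem KMat_trp_rk (A X : Fin d → Fin d → ℝ) (c : ℝ) (e : Vec d) :
    trp (fun i j => A i j + c * (e i * e j)) X = trp A X + c * qf X e := by
  unfold trp qf
  rw [Finset.mul_sum, ← Finset.sum_add_distrib]
  refine Finset.sum_congr rfl fun i _ => ?_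
  rw [Finset.mul_sum, ← Finset.sum_add_distrib]
  exact Finset.sum_congr rfl fun j _ => by ring

/-- with localisation: `X[p,p] - Y[q,q] ≤ b|p-q|² + E(|p|²+|q|²)` -/
theorem mat_loc {lam ρ b E : ℝ} (hl : 0 < lam) (hρ0 : 0 ≤ ρ) (hρ : ρ ≤ lam / 2) (hb : 0 < b)
    {A A' X Y : Fin d → Fin d → ℝ} (hA : ∀ i j, A i j = A j i) (hA' : ∀ i j, A' i j = A' j i)
    (hX : ∀ i j, X i j = X j i) (hY : ∀ i j, Y i j = Y j i)
    (hlow : ∀ ξ, lam * nsq ξ ≤ qf A' ξ) (hdif : ∀ ξ, |qf A ξ - qf A' ξ| ≤ ρ * nsq ξ)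
    (h : ∀ p q : Vec d, qf X p - qf Y q ≤ b * nsq (p - q) + E * (nsq p + nsq q)) :
    trp A X - trp A' Y ≤ d * ρ ^ 2 * b / (2 * lam) + E * (∑ i, A i i + ∑ i, A' i i) := by
  have h1 := mat hl hρ0 hρ hb hA hA'
    (X := fun i j => X i j + (-E) * (if i = j then 1 else 0))
    (Y := fun i j => Y i j + E * (if i = j then 1 else 0))
    (fun i j => by
      rw [hX i j]
      simp only [eq_comm])
    (fun i j => by
      rw [hY i j]
      simp only [eq_comm]) hlow hdif
    (fun p q => by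
      rw [KMat_qf_id, KMat_qf_id]
      linarith [h p q])
  rw [KMat_trp_id, KMat_trp_id] at h1
  linarith

/-- with localisation and reflection in the direction `e` -/
theorem mat_refl {lam ρ b E h₁ : ℝ} (hl : 0 < lam) (hρ0 : 0 ≤ ρ) (hρ : ρ ≤ lam / 2) (hb : 0 < b)
    (hE : 0 ≤ E)
    {A A' X Y : Fin d → Fin d → ℝ} (hA : ∀ i j, A i j = A j i) (hA' : ∀ i j, A' i j = A' j i)
    (hX : ∀ i j, X i j = X j i) (hY : ∀ i j, Y i j = Y j i)
    (hlow : ∀ ξ, 2 * lam * nsq ξ ≤ qf A' ξ) (hdif : ∀ ξ, |qf A ξ - qf A' ξ| ≤ ρ * nsq ξ)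
    (h : ∀ p q : Vec d, qf X p - qf Y q ≤ b * nsq (p - q) + E * (nsq p + nsq q))
    {e : Vec d} (he : nsq e = 1) (h1 : qf X e - qf Y e ≤ h₁ + 2 * E) :
    trp A X - trp A' Y ≤ lam * h₁ + d * ρ ^ 2 * b / (2 * lam) + E * (∑ i, A i i + ∑ i, A' i i) := by
  have h2 := mat_loc (E := E) hl hρ0 hρ hb
    (A := fun i j => A i j + (-lam) * (e i * e j))
    (A' := fun i j => A' i j + (-lam) * (e i * e j))
    (fun i j => by
      rw [hA i j]
      ring)
    (fun i j => by
      rw [hA' i j]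
      ring) hX hY
    (fun g => by
      rw [KMat_qf_add]
      have h3 := cs e g
      rw [he, one_mul] at h3
      nlinarith [hlow g])
    (fun g => by
      rw [KMat_qf_add, KMat_qf_add]
      have h3 := hdif g
      have h4 : qf A g + -lam * dot e g ^ 2 - (qf A' g + -lam * dot e g ^ 2)
          = qf A g - qf A' g := by ring
      rw [h4]
      exact h3) h
  have h5 : ∀ B : Fin d → Fin d → ℝ, ∑ i, (B i i + (-lam) * (e i * e i)) = ∑ i, B i i - lam := by
    intro B
    rw [Finset.sum_add_distrib, ← Finset.mul_sum]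
    have h6 : ∑ i, e i * e i = 1 := by
      rw [← he]
      unfold nsq
      exact Finset.sum_congr rfl fun i _ => by ring
    rw [h6]
    ring
  rw [KMat_trp_rk, KMat_trp_rk, h5, h5] at h2
  nlinarith [mul_le_mul_of_nonneg_left h1 hl.le]

end Pool.Agent.H15.KM
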