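import Pool.Agent.H15.KM.Ann

/-!
# Module Sc: comparison of consecutive scales

`Zk (k+1) = 4096 Zk k`, `Wk (k+1) = 16 Wk k`; with `Z, Q = Z - κW` at the scale `k`, `Z⁺, Q⁺` at the scale `k+1`: `Z⁺ = 4096 Z`, `Q⁺ = 16 Q + 4080 Z`, and `Z = Z⁺/4096`, `Q = Q⁺/16 - (1/16 - 1/4096) Z⁺`.
`RR_le`, `len_le_RR` (`be ≤ 1/100`): `RR⁺ ≤ 8200·|Z|·1.01 + ... ≤ 8300 RR`, and `RR ≤ 0.07 RR⁺`. `GG² = 1 + RR`.
lo: `GG_k (1/2)^k ≤ GG_{k+1} (1/2)^(k+1)`: `4 (1+RR_k) ≤ 1 + RR_{k+1} ≤ 1 + 8300 RR_k`, so `RR_k ≥ 3/8296 > 1/3000`.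
hi: `(1/2)^(k+1) GG_{k+1} ≤ (1/2)^k GG_k`: `1 + RR_{k+1} ≤ 4 (1 + 0.07 RR_{k+1})`, so `RR_{k+1} ≤ 3/0.72 < 5`.
-/

set_option autoImplicit false

open MeasureTheory Set Filter Topology Pool.Agent.H25.Kin

namespace Pool.Agent.H15.KM

variable {d : ℕ}

private theorem Sc_Z (r : ℝ) (k : ℕ) (z : Vec d) : Zk r (k + 1) z = (4096 : ℝ) • Zk r k z := by
  unfold Zk
  rw [smul_smul]
  congr 1
  ring

private theorem Sc_W (r : ℝ) (k : ℕ) (w : Vec d) : Wk r (k + 1) w = (16 : ℝ) • Wk r k w := by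
  unfold Wk
  rw [smul_smul]
  congr 1
  ring

private theorem Sc_Q (κ : ℝ) (Z W : Vec d) : (4096 : ℝ) • Z - κ • ((16 : ℝ) • W) =
    (16 : ℝ) • (Z - κ • W) + (4080 : ℝ) • Z := by
  funext i
  simp only [Pi.sub_apply, Pi.add_apply, Pi.smul_apply, smul_eq_mul]
  ring

private theorem Sc_Q' (κ : ℝ) (Z W : Vec d) : Z - κ • W =
    (1 / 16 : ℝ) • ((4096 : ℝ) • Z - κ • ((16 : ℝ) • W)) - (255 / 4096 : ℝ) • ((4096 : ℝ) • Z) := by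
  funext i
  simp only [Pi.sub_apply, Pi.smul_apply, smul_eq_mul]
  ring

private theorem Sc_half (k : ℕ) {a b : ℝ} (h : (1 / 2 : ℝ) ^ k * a ≤ (1 / 2) ^ (k + 1) * b) :
    2 * a ≤ b := by
  have hp : (0 : ℝ) < (1 / 2) ^ k := by positivity
  have h1 : (1 / 2 : ℝ) ^ k * (2 * a) ≤ (1 / 2) ^ k * b := by
    rw [pow_succ] at h
    nlinarith
  exact le_of_mul_le_mul_left h1 hp

private theorem Sc_half' (k : ℕ) {a b : ℝ} (h : (1 / 2 : ℝ) ^ (k + 1) * b ≤ (1 / 2) ^ k * a) :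
    b ≤ 2 * a := by
  have hp : (0 : ℝ) < (1 / 2) ^ k := by positivity
  have h1 : (1 / 2 : ℝ) ^ k * b ≤ (1 / 2) ^ k * (2 * a) := by
    rw [pow_succ] at h
    nlinarith
  exact le_of_mul_le_mul_left h1 hp

private theorem Sc_be : (0 : ℝ) ≤ be ∧ be ≤ 1 / 100 := by
  unfold be
  norm_num

theorem sc_lo {κ r : ℝ} (k : ℕ) (z w : Vec d)
    (h : (1 / 2 : ℝ) ^ k * Gk be κ r k z w ≤ (1 / 2) ^ (k + 1) * Gk be κ r (k + 1) z w) :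
    1 / 3000 ≤ RR be (Zk r k z) (Zk r k z - κ • Wk r k w) := by
  have h1 := Sc_half k h
  unfold Gk at h1
  rw [Sc_Z, Sc_W, Sc_Q] at h1
  obtain ⟨Z, hZ⟩ : ∃ Z, Z = Zk r k z := ⟨_, rfl⟩
  obtain ⟨Q, hQ⟩ : ∃ Q, Q = Zk r k z - κ • Wk r k w := ⟨_, rfl⟩
  rw [← hQ, ← hZ] at h1
  rw [← hQ, ← hZ]
  obtain ⟨hb0, hb1⟩ := Sc_be
  have g0 := one_le_GG (β := be) Z Q
  have g1 := GG_sq (β := be) Z Q
  have g2 := GG_sq (β := be) ((4096 : ℝ) • Z) ((16 : ℝ) • Q + (4080 : ℝ) • Z)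
  have h2 : (2 * GG be Z Q) ^ 2 ≤ GG be ((4096 : ℝ) • Z) ((16 : ℝ) • Q + (4080 : ℝ) • Z) ^ 2 :=
    pow_le_pow_left₀ (by linarith) h1 2
  rw [mul_pow, g1, g2] at h2
  have h3 := RR_le hb0 ((4096 : ℝ) • Z) ((16 : ℝ) • Q + (4080 : ℝ) • Z)
  have h4 := len_le_RR (β := be) Z Q
  have h5 := len_add ((16 : ℝ) • Q) ((4080 : ℝ) • Z)
  rw [len_smul, len_smul, abs_of_pos (by norm_num : (0 : ℝ) < 16),
    abs_of_pos (by norm_num : (0 : ℝ) < 4080)] at h5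
  rw [len_smul, abs_of_pos (by norm_num : (0 : ℝ) < 4096)] at h3
  have hZ0 := len_nn Z
  have hQ0 := len_nn Q
  have h6 : (2 + be) * (4096 * len Z) ≤ (201 / 100) * (4096 * len Z) :=
    mul_le_mul_of_nonneg_right (by linarith) (by positivity)
  have h7 : (1 + 2 * be) * len ((16 : ℝ) • Q + (4080 : ℝ) • Z) ≤
      (102 / 100) * (16 * len Q + 4080 * len Z) :=
    mul_le_mul (by linarith) h5 (len_nn _) (by norm_num)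
  linarith

theorem sc_hi {κ r : ℝ} (k : ℕ) (z w : Vec d)
    (h : (1 / 2 : ℝ) ^ (k + 1) * Gk be κ r (k + 1) z w ≤ (1 / 2) ^ k * Gk be κ r k z w) :
    RR be (Zk r (k + 1) z) (Zk r (k + 1) z - κ • Wk r (k + 1) w) ≤ 5 := by
  have h1 := Sc_half' k h
  unfold Gk at h1
  rw [Sc_Z, Sc_W] at h1 ⊢
  rw [Sc_Q' κ (Zk r k z) (Wk r k w)] at h1
  obtain ⟨Z, hZ⟩ : ∃ Z, Z = Zk r k z := ⟨_, rfl⟩
  obtain ⟨P, hP⟩ : ∃ P, P = (4096 : ℝ) • Zk r k z := ⟨_, rfl⟩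
  obtain ⟨Q, hQ⟩ : ∃ Q, Q = (4096 : ℝ) • Zk r k z - κ • ((16 : ℝ) • Wk r k w) := ⟨_, rfl⟩
  have hPZ : Zk r k z = (1 / 4096 : ℝ) • P := by
    rw [hP, smul_smul]
    norm_num
  rw [← hQ, ← hP, hPZ] at h1
  rw [← hQ, ← hP]
  obtain ⟨hb0, hb1⟩ := Sc_be
  have g0 := one_le_GG (β := be) P Q
  have g1 := GG_sq (β := be) P Q
  have g2 := GG_sq (β := be) ((1 / 4096 : ℝ) • P) ((1 / 16 : ℝ) • Q - (255 / 4096 : ℝ) • P)
  have h2 : GG be P Q ^ 2 ≤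
      (2 * GG be ((1 / 4096 : ℝ) • P) ((1 / 16 : ℝ) • Q - (255 / 4096 : ℝ) • P)) ^ 2 :=
    pow_le_pow_left₀ (by linarith) h1 2
  rw [mul_pow, g1, g2] at h2
  have h3 := RR_le hb0 ((1 / 4096 : ℝ) • P) ((1 / 16 : ℝ) • Q - (255 / 4096 : ℝ) • P)
  have h4 := len_le_RR (β := be) P Q
  have h5 := len_sub ((1 / 16 : ℝ) • Q) ((255 / 4096 : ℝ) • P)
  rw [len_smul, len_smul, abs_of_pos (by norm_num : (0 : ℝ) < 1 / 16),
    abs_of_pos (by norm_num : (0 : ℝ) < 255 / 4096)] at h5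
  rw [len_smul, abs_of_pos (by norm_num : (0 : ℝ) < 1 / 4096)] at h3
  have hZ0 := len_nn P
  have hQ0 := len_nn Q
  have h6 : (2 + be) * (1 / 4096 * len P) ≤ (201 / 100) * (1 / 4096 * len P) :=
    mul_le_mul_of_nonneg_right (by linarith) (by positivity)
  have h7 : (1 + 2 * be) * len ((1 / 16 : ℝ) • Q - (255 / 4096 : ℝ) • P) ≤
      (102 / 100) * (1 / 16 * len Q + 255 / 4096 * len P) :=
    mul_le_mul (by linarith) h5 (len_nn _) (by norm_num)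
  linarith

end Pool.Agent.H15.KM
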