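import Pool.Agent.H15.KM.Ann

/-!
# Module Tch: existence of a first touching point

`D = u t x v - u t y w`, window `(t₀-r², t₀]`, velocities in the ball of radius `r` around `v₀`.
1. `u` is Lipschitz on `[t₀-r², t₀] × ℝ^d × ball` in `(x,v)` (`C2On`, `0 < t₀ - r²`; `fderiv` of `unc u` is continuous on the compact set `[t₀-r²,t₀] × [0,1]^d × closed ball`, periodicity in `x`; the ball is convex).
2. For `k ≥ k₀(Lipschitz constant, K, κ, r)`: `D < Φ_k` for all `t` in the window: `Gk ≥ √(1 + c 16^k s)`, `s = |x-y| + |v-w|` (`len_le_RR`: `RR ≥ |Z|, |Q|`, `κ|W| ≤ |Z|+|Q| ≤ 2 RR`); `K 2^(-k) > L 16^(-k)` if `s ≤ 16^(-k)`;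
`K 2^(-k) √c 4^k √s > min (L s) 2` otherwise.
3. For `k < k₀` and `(t-t₁)/r² ≤ K 2^(-k₀)/3`: `Φ_k > 2 ≥ D`.
4. For `k < k₀`, `t ∈ [t₁+τ₀r², t₀]` the set of the points with `Φ_k ≤ D`, `x ∈ [0,1]^d`, is compact (`Φ_k ≤ 2` bounds `x - y`). First time: minimum of `t` over the union of these finitely many compact sets. Before it `D < Φ_k` for all `k`, all points (translate `x` into `[0,1]^d`,
`Φ` depends on `x - y` only); at it `D ≤ Φ_k` by continuity in `t`, so equality at the point found. Strictly inside the ball since `Φ_k ≥ 3 > 2` on the boundary.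
-/

set_option autoImplicit false

open MeasureTheory Set Filter Topology Pool.Agent.H25.Kin

namespace Pool.Agent.H15.KM

variable {d : ℕ}

private theorem Tch_coord (a : Vec d) (i : Fin d) : |a i| ≤ len a := by
  rw [← Real.sqrt_sq_eq_abs]
  exact Real.sqrt_le_sqrt
    (Finset.single_le_sum (f := fun i => a i ^ 2) (fun i _ => sq_nonneg _) (Finset.mem_univ i))

private theorem Tch_norm (a : Vec d) : ‖a‖ ≤ len a := by
  rw [pi_norm_le_iff_of_nonneg (len_nn a)]
  intro i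
  rw [Real.norm_eq_abs]
  exact Tch_coord a i

private theorem Tch_nsq_c : Continuous (nsq : Vec d → ℝ) :=
  continuous_finsetSum _ fun i _ => (continuous_apply i).pow 2

private theorem Tch_len_c : Continuous (len : Vec d → ℝ) := Tch_nsq_c.sqrt

private theorem Tch_ball (v₀ : Vec d) (r : ℝ) : IsCompact {v : Vec d | len (v - v₀) ≤ r} := by
  refine IsCompact.of_isClosed_subset
    (isCompact_Icc (a := fun i => v₀ i - r) (b := fun i => v₀ i + r))
    (isClosed_le (Tch_len_c.comp (continuous_id.sub continuous_const)) continuous_const) ?_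
  intro v hv
  have h := fun i => abs_le.1 ((Tch_coord (v - v₀) i).trans hv)
  refine ⟨fun i => ?_, fun i => ?_⟩
  · have h1 := (h i).1
    rw [Pi.sub_apply] at h1
    show v₀ i - r ≤ v i
    linarith
  · have h1 := (h i).2
    rw [Pi.sub_apply] at h1
    show v i ≤ v₀ i + r
    linarith

private theorem Tch_conv (v₀ : Vec d) (r : ℝ) : Convex ℝ {v : Vec d | len (v - v₀) ≤ r} := by
  intro a ha b hb s t hs ht hst
  have ha' : len (a - v₀) ≤ r := ha
  have hb' : len (b - v₀) ≤ r := hb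
  have h : s • a + t • b - v₀ = s • (a - v₀) + t • (b - v₀) := by
    ext i
    simp only [Pi.sub_apply, Pi.add_apply, Pi.smul_apply, smul_eq_mul]
    linear_combination (v₀ i) * hst
  show len (s • a + t • b - v₀) ≤ r
  rw [h]
  refine (len_add _ _).trans ?_
  rw [len_smul, len_smul, abs_of_nonneg hs, abs_of_nonneg ht]
  have h1 := mul_le_mul_of_nonneg_left ha' hs
  have h2 := mul_le_mul_of_nonneg_left hb' ht
  have h3 : s * r + t * r = r := by
    rw [← add_mul, hst, one_mul]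
  linarith

private theorem Tch_per {g : Vec d → ℝ} (hp : ∀ x i, g (x + Pi.single i 1) = g x) (n : Fin d → ℤ)
    (x : Vec d) : g (x + fun i => (n i : ℝ)) = g x := by
  have h1 : (fun i => (n i : ℝ)) = ∑ i, n i • (Pi.single i 1 : Vec d) := by
    ext j
    rw [Finset.sum_apply, Finset.sum_eq_single j]
    · simp
    · intro i _ hij
      simp [Ne.symm hij]
    · intro h
      exact absurd (Finset.mem_univ j) h
  rw [h1]
  have h2 : ∀ x, g (x + ∑ i, n i • (Pi.single i 1 : Vec d)) = g x := by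
    refine Finset.sum_induction (fun i => n i • (Pi.single i 1 : Vec d))
      (fun c => ∀ x, g (x + c) = g x) ?_ ?_ ?_
    · intro a b ha hb x
      rw [← add_assoc, hb, ha]
    · intro x
      rw [add_zero]
    · intro i _ x
      have h3 : Function.Periodic g (Pi.single i 1) := fun x => hp x i
      exact h3.zsmul (n i) x
  exact h2 x

private theorem Tch_lip {T : ℝ} {u : ℝ → Vec d → Vec d → ℝ} (hC : C2On T u)
    (hper : ∀ t ∈ Ioo 0 T, ∀ x v i, u t (x + Pi.single i 1) v = u t x v)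
    {t₁ t₀ : ℝ} (h0 : 0 < t₁) (h1 : t₀ < T) {v₀ : Vec d} {r : ℝ}
    (hu : ∀ t ∈ Icc t₁ t₀, ∀ x v, len (v - v₀) ≤ r → |u t x v| ≤ 1) :
    ∃ L : ℝ, 0 < L ∧ ∀ t ∈ Icc t₁ t₀, ∀ x v y w, len (v - v₀) ≤ r → len (w - v₀) ≤ r →
      u t x v - u t y w ≤ L * (len (x - y) + len (v - w)) := by
  have hO : IsOpen ((Ioo 0 T : Set ℝ) ×ˢ (univ : Set (Vec d × Vec d))) := isOpen_Ioo.prod isOpen_univ
  have hfc : ContinuousOn (fderiv ℝ (unc u)) (Ioo 0 T ×ˢ univ) :=
    ContDiffOn.continuousOn_fderiv_of_isOpen hC hO (by norm_num)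
  set S : Set (ℝ × Vec d × Vec d) :=
    Icc t₁ t₀ ×ˢ (Icc (fun _ => (-1 : ℝ)) (fun _ => (2 : ℝ)) ×ˢ {v : Vec d | len (v - v₀) ≤ r}) with hS
  have hSc : IsCompact S := isCompact_Icc.prod (isCompact_Icc.prod (Tch_ball v₀ r))
  have hSv : Convex ℝ S := (convex_Icc _ _).prod ((convex_Icc _ _).prod (Tch_conv v₀ r))
  have hSO : S ⊆ Ioo 0 T ×ˢ univ := by
    rintro p ⟨hp, _⟩
    exact ⟨⟨lt_of_lt_of_le h0 hp.1, lt_of_le_of_lt hp.2 h1⟩, mem_univ _⟩
  obtain ⟨C, hCb⟩ := hSc.exists_bound_of_continuousOn (hfc.mono hSO)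
  have hd : ∀ p ∈ S, DifferentiableAt ℝ (unc u) p := fun p hp =>
    (hC.differentiableOn (by norm_num)).differentiableAt (hO.mem_nhds (hSO hp))
  refine ⟨max C 2, lt_of_lt_of_le (by norm_num) (le_max_right _ _), ?_⟩
  intro t ht x v y w hv hw
  have hlx := len_nn (x - y)
  have hlv := len_nn (v - w)
  have htT : t ∈ Ioo 0 T := ⟨lt_of_lt_of_le h0 ht.1, lt_of_le_of_lt ht.2 h1⟩
  rcases le_or_gt (len (x - y)) 1 with hxy | hxy
  · set n : Fin d → ℤ := fun i => -⌊x i⌋ with hn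
    have e1 : u t (x + fun i => (n i : ℝ)) v = u t x v :=
      Tch_per (g := fun x => u t x v) (fun x i => hper t htT x v i) n x
    have e2 : u t (y + fun i => (n i : ℝ)) w = u t y w :=
      Tch_per (g := fun x => u t x w) (fun x i => hper t htT x w i) n y
    set x' : Vec d := x + fun i => (n i : ℝ) with hx'
    set y' : Vec d := y + fun i => (n i : ℝ) with hy'
    have hx'i : ∀ i, x' i = x i - ⌊x i⌋ := by
      intro i
      rw [hx', Pi.add_apply, hn]
      push_cast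
      ring
    have hsub : x' - y' = x - y := by
      rw [hx', hy']
      abel
    have hx0 : ∀ i, 0 ≤ x' i := fun i => by
      rw [hx'i]
      linarith [Int.floor_le (x i)]
    have hx1 : ∀ i, x' i ≤ 1 := fun i => by
      rw [hx'i]
      linarith [Int.lt_floor_add_one (x i)]
    have hyi : ∀ i, |x' i - y' i| ≤ 1 := fun i => by
      have := Tch_coord (x' - y') i
      rw [Pi.sub_apply, hsub] at this
      exact this.trans hxy
    have hp : (t, x', v) ∈ S := by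
      refine ⟨ht, ⟨fun i => ?_, fun i => ?_⟩, hv⟩
      · show (-1 : ℝ) ≤ x' i
        linarith [hx0 i]
      · show x' i ≤ (2 : ℝ)
        linarith [hx1 i]
    have hq : (t, y', w) ∈ S := by
      refine ⟨ht, ⟨fun i => ?_, fun i => ?_⟩, hw⟩
      · show (-1 : ℝ) ≤ y' i
        have := (abs_le.1 (hyi i)).2
        linarith [hx0 i]
      · show y' i ≤ (2 : ℝ)
        have := (abs_le.1 (hyi i)).1
        linarith [hx1 i]
    have hm := hSv.norm_image_sub_le_of_norm_fderiv_le (𝕜 := ℝ) hd hCb hq hp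
    have hC0 : 0 ≤ C := (norm_nonneg _).trans (hCb _ hp)
    have hnorm : ‖((t, x', v) : ℝ × Vec d × Vec d) - (t, y', w)‖ ≤ len (x - y) + len (v - w) := by
      rw [Prod.mk_sub_mk, Prod.mk_sub_mk, sub_self, hsub]
      refine norm_prod_le_iff.2 ⟨?_, norm_prod_le_iff.2 ⟨?_, ?_⟩⟩
      · rw [norm_zero]
        linarith
      · have := Tch_norm (x - y)
        show ‖x - y‖ ≤ _
        linarith
      · have := Tch_norm (v - w)
        show ‖v - w‖ ≤ _
        linarith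
    have h5 : u t x v - u t y w ≤ C * (len (x - y) + len (v - w)) := by
      rw [← e1, ← e2]
      refine (le_abs_self _).trans ?_
      exact hm.trans (mul_le_mul_of_nonneg_left hnorm hC0)
    exact h5.trans (mul_le_mul_of_nonneg_right (le_max_left _ _) (by linarith))
  · have h3 := abs_le.1 (hu t ht x v hv)
    have h4 := abs_le.1 (hu t ht y w hw)
    have h5 : 2 * (len (x - y) + len (v - w)) ≤ max C 2 * (len (x - y) + len (v - w)) :=
      mul_le_mul_of_nonneg_right (le_max_right _ _) (by linarith)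
    linarith [h3.2, h4.1]

private theorem Tch_RR {κ r : ℝ} (hκ : 0 < κ) (hr : 0 < r) (k : ℕ) (z w : Vec d) :
    min (1 / r ^ 3) (κ / r) * 16 ^ k * (len z + len w) ≤
      RR be (Zk r k z) (Zk r k z - κ • Wk r k w) := by
  have h1 := len_le_RR (β := be) (Zk r k z) (Zk r k z - κ • Wk r k w)
  have h2 := len_sub (Zk r k z) (Zk r k z - κ • Wk r k w)
  have h3 : Zk r k z - (Zk r k z - κ • Wk r k w) = κ • Wk r k w := by abel
  rw [h3, len_smul, abs_of_pos hκ] at h2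
  have h4 : len (Wk r k w) = 16 ^ k / r * len w := by
    rw [Wk, len_smul, abs_of_pos (by positivity)]
  have h5 : len (Zk r k z) = 4096 ^ k / r ^ 3 * len z := by
    rw [Zk, len_smul, abs_of_pos (by positivity)]
  have h6 : (16 : ℝ) ^ k ≤ 4096 ^ k := pow_le_pow_left₀ (by norm_num) (by norm_num) k
  have h7 : 16 ^ k / r ^ 3 * len z ≤ 4096 ^ k / r ^ 3 * len z :=
    mul_le_mul_of_nonneg_right (div_le_div_of_nonneg_right h6 (by positivity)) (len_nn z)
  have h8 : min (1 / r ^ 3) (κ / r) * 16 ^ k * len z ≤ 16 ^ k / r ^ 3 * len z := by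
    refine mul_le_mul_of_nonneg_right ?_ (len_nn z)
    have := mul_le_mul_of_nonneg_right (min_le_left (1 / r ^ 3) (κ / r))
      (by positivity : (0 : ℝ) ≤ 16 ^ k)
    refine this.trans (le_of_eq ?_)
    ring
  have h9 : min (1 / r ^ 3) (κ / r) * 16 ^ k * len w ≤ κ * (16 ^ k / r * len w) := by
    have := mul_le_mul_of_nonneg_right (min_le_right (1 / r ^ 3) (κ / r))
      (by positivity : (0 : ℝ) ≤ 16 ^ k)
    have h10 := mul_le_mul_of_nonneg_right this (len_nn w)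
    refine h10.trans (le_of_eq ?_)
    ring
  rw [h4] at h2
  rw [h5] at h1 h2
  have h11 : min (1 / r ^ 3) (κ / r) * 16 ^ k * (len z + len w) =
      min (1 / r ^ 3) (κ / r) * 16 ^ k * len z + min (1 / r ^ 3) (κ / r) * 16 ^ k * len w := by
    ring
  rw [h11]
  linarith

private theorem Tch_Bk {κ K r τ : ℝ} (hK : 0 < K) (hτ : 0 < τ) (hτ1 : τ ≤ 1) (k : ℕ) (z w : Vec d) :
    K * (1 / 2) ^ k * Gk be κ r k z w ≤ Bk be κ K r τ k z w := by
  have hG : 1 ≤ Gk be κ r k z w := one_le_GG _ _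
  unfold Bk
  have h1 : K ≤ K / τ := by
    rw [le_div_iff₀ hτ]
    nlinarith
  have h2 : K * (1 / 2) ^ k ≤ K / τ * (1 / 2) ^ k :=
    mul_le_mul_of_nonneg_right h1 (by positivity)
  exact mul_le_mul_of_nonneg_right h2 (by linarith)

/-- the barriers of small scale are large -/
private theorem Tch_big {κ K L : ℝ} {r : ℝ} (hκ : 0 < κ) (hr : 0 < r) (hK : 0 < K) (hL : 0 < L)
    {k : ℕ} (hk : 4 < min (1 / r ^ 3) (κ / r) * K ^ 3 / L * 2 ^ k) {z w : Vec d} {D : ℝ}
    (hD2 : D ≤ 2) (hDL : D ≤ L * (len z + len w)) : D < K * (1 / 2) ^ k * Gk be κ r k z w := by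
  by_contra hcon
  rw [not_lt] at hcon
  have hG : 1 ≤ Gk be κ r k z w := one_le_GG _ _
  have hG2 : Gk be κ r k z w ^ 2 = 1 + RR be (Zk r k z) (Zk r k z - κ • Wk r k w) := GG_sq _ _
  have hR := Tch_RR hκ hr k z w
  set c := min (1 / r ^ 3) (κ / r) with hc
  have hc0 : 0 < c := lt_min (by positivity) (by positivity)
  set s := len z + len w with hs
  set G := Gk be κ r k z w with hGd
  set b : ℝ := 2 ^ k with hb
  have hb0 : 0 < b := by positivity
  have e1 : (1 / 2 : ℝ) ^ k = 1 / b := by rw [hb, one_div_pow]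
  have e2 : (16 : ℝ) ^ k = b ^ 4 := by
    rw [hb, ← pow_mul, mul_comm k 4, pow_mul]
    norm_num
  rw [e1] at hcon
  rw [e2] at hR
  have h1 : K * (1 / b) ≤ L * s := by
    have h3 : K * (1 / b) * 1 ≤ K * (1 / b) * G := mul_le_mul_of_nonneg_left hG (by positivity)
    linarith
  have h2 : K ≤ L * s * b := by
    have h3 : K * (1 / b) = K / b := by ring
    rw [h3, div_le_iff₀ hb0] at h1
    exact h1
  have h4 : (K * (1 / b) * G) ^ 2 ≤ 2 ^ 2 := by
    refine pow_le_pow_left₀ (by positivity) ?_ 2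
    linarith
  have h5 : (K * (1 / b) * G) ^ 2 = K ^ 2 / b ^ 2 * G ^ 2 := by
    field_simp
  rw [h5, hG2] at h4
  have h6 : K ^ 2 / b ^ 2 * (c * b ^ 4 * s) ≤ 4 := by
    have h7 : K ^ 2 / b ^ 2 * (c * b ^ 4 * s) ≤
        K ^ 2 / b ^ 2 * (1 + RR be (Zk r k z) (Zk r k z - κ • Wk r k w)) :=
      mul_le_mul_of_nonneg_left (by linarith) (by positivity)
    linarith
  have h7 : K ^ 2 / b ^ 2 * (c * b ^ 4 * s) = c * K ^ 2 * b * (s * b) := by
    field_simp
  rw [h7] at h6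
  have h8 : c * K ^ 2 * b * K ≤ c * K ^ 2 * b * (L * s * b) :=
    mul_le_mul_of_nonneg_left h2 (by positivity)
  have h9 : c * K ^ 3 / L * b ≤ 4 := by
    rw [div_mul_eq_mul_div, div_le_iff₀ hL]
    nlinarith
  linarith

/-- the difference of the barrier and of the two point function -/
private noncomputable def Tch_F (u : ℝ → Vec d → Vec d → ℝ) (κ K r t₁ : ℝ) (v₀ : Vec d) (k : ℕ)
    (p : ℝ × Vec d × Vec d × Vec d × Vec d) : ℝ :=
  Ph be κ K r t₁ v₀ k p.1 p.2.1 p.2.2.1 p.2.2.2.1 p.2.2.2.2 -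
    (u p.1 p.2.1 p.2.2.1 - u p.1 p.2.2.2.1 p.2.2.2.2)

private theorem Tch_GG_c : Continuous fun p : Vec d × Vec d => GG be p.1 p.2 := by
  unfold GG RR nm
  have h1 : Continuous fun p : Vec d × Vec d => nsq p.1 := Tch_nsq_c.comp continuous_fst
  have h2 : Continuous fun p : Vec d × Vec d => nsq p.2 := Tch_nsq_c.comp continuous_snd
  fun_prop

private theorem Tch_cont {T : ℝ} {u : ℝ → Vec d → Vec d → ℝ} (hC : C2On T u) {κ K r t₁ : ℝ}
    (hr : 0 < r) (h0 : 0 < t₁) (v₀ : Vec d) (k : ℕ) :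
    ContinuousOn (Tch_F u κ K r t₁ v₀ k) {p | t₁ < p.1 ∧ p.1 < T} := by
  have hu : ContinuousOn (unc u) (Ioo 0 T ×ˢ univ) := hC.continuousOn
  have hu1 : ContinuousOn (fun p : ℝ × Vec d × Vec d × Vec d × Vec d => unc u (p.1, p.2.1, p.2.2.1))
      {p | t₁ < p.1 ∧ p.1 < T} :=
    hu.comp (by fun_prop) fun p hp => ⟨⟨h0.trans hp.1, hp.2⟩, mem_univ _⟩
  have hu2 : ContinuousOn
      (fun p : ℝ × Vec d × Vec d × Vec d × Vec d => unc u (p.1, p.2.2.2.1, p.2.2.2.2))
      {p | t₁ < p.1 ∧ p.1 < T} :=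
    hu.comp (by fun_prop) fun p hp => ⟨⟨h0.trans hp.1, hp.2⟩, mem_univ _⟩
  have hG : Continuous fun p : ℝ × Vec d × Vec d × Vec d × Vec d =>
      Gk be κ r k (p.2.1 - p.2.2.2.1) (p.2.2.1 - p.2.2.2.2) := by
    unfold Gk Zk Wk
    have h1 : Continuous fun p : ℝ × Vec d × Vec d × Vec d × Vec d =>
        ((((4096 : ℝ) ^ k / r ^ 3) • (p.2.1 - p.2.2.2.1),
          ((4096 : ℝ) ^ k / r ^ 3) • (p.2.1 - p.2.2.2.1) -
            κ • (((16 : ℝ) ^ k / r) • (p.2.2.1 - p.2.2.2.2))) : Vec d × Vec d) := by fun_prop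
    exact Tch_GG_c.comp h1
  have hn1 : Continuous fun p : ℝ × Vec d × Vec d × Vec d × Vec d => nsq (p.2.2.1 - v₀) :=
    Tch_nsq_c.comp (by fun_prop)
  have hn2 : Continuous fun p : ℝ × Vec d × Vec d × Vec d × Vec d => nsq (p.2.2.2.2 - v₀) :=
    Tch_nsq_c.comp (by fun_prop)
  have hK : ContinuousOn (fun p : ℝ × Vec d × Vec d × Vec d × Vec d => K / ((p.1 - t₁) / r ^ 2))
      {p | t₁ < p.1 ∧ p.1 < T} := by
    refine ContinuousOn.div continuousOn_const (by fun_prop) ?_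
    intro p hp
    have h2 : 0 < p.1 - t₁ := sub_pos.2 hp.1
    positivity
  unfold Tch_F Ph Bk
  refine ContinuousOn.sub (ContinuousOn.add ((hK.mul continuousOn_const).mul hG.continuousOn)
    (continuousOn_const.mul (hn1.add hn2).continuousOn)) ?_
  exact hu1.sub hu2

theorem touch {T : ℝ} {u : ℝ → Vec d → Vec d → ℝ} (hC : C2On T u)
    (hper : ∀ t ∈ Ioo 0 T, ∀ x v i, u t (x + Pi.single i 1) v = u t x v)
    {t₀ r : ℝ} (hr : 0 < r) (h0 : r ^ 2 < t₀) (h1 : t₀ < T) {v₀ : Vec d}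
    (hu : ∀ t ∈ Icc (t₀ - r ^ 2) t₀, ∀ x v, len (v - v₀) ≤ r → |u t x v| ≤ 1)
    {κ K : ℝ} (hκ : 0 < κ) (hK : 0 < K)
    (hbad : ∃ t ∈ Ioc (t₀ - r ^ 2) t₀, ∃ (k : ℕ) (x v y w : Vec d), len (v - v₀) ≤ r ∧
      len (w - v₀) ≤ r ∧ Ph be κ K r (t₀ - r ^ 2) v₀ k t x v y w ≤ u t x v - u t y w) :
    ∃ t ∈ Ioc (t₀ - r ^ 2) t₀, ∃ (k : ℕ) (x v y w : Vec d), len (v - v₀) < r ∧
      len (w - v₀) < r ∧ u t x v - u t y w = Ph be κ K r (t₀ - r ^ 2) v₀ k t x v y w ∧
      ∀ s ∈ Ioc (t₀ - r ^ 2) t, ∀ (k' : ℕ) (x' v' y' w' : Vec d), len (v' - v₀) ≤ r →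
        len (w' - v₀) ≤ r → u s x' v' - u s y' w' ≤ Ph be κ K r (t₀ - r ^ 2) v₀ k' s x' v' y' w' := by
  set t₁ := t₀ - r ^ 2 with ht₁
  have ht10 : 0 < t₁ := by
    rw [ht₁]
    linarith
  have hr2 : 0 < r ^ 2 := by positivity
  obtain ⟨L, hL, hlip⟩ := Tch_lip hC hper ht10 h1 hu
  -- `D ≤ 2`
  have hD2 : ∀ t ∈ Icc t₁ t₀, ∀ x v y w : Vec d, len (v - v₀) ≤ r → len (w - v₀) ≤ r →
      u t x v - u t y w ≤ 2 := by
    intro t ht x v y w hv hw
    have h3 := abs_le.1 (hu t ht x v hv)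
    have h4 := abs_le.1 (hu t ht y w hw)
    linarith [h3.2, h4.1]
  have hτ : ∀ t ∈ Ioc t₁ t₀, 0 < (t - t₁) / r ^ 2 ∧ (t - t₁) / r ^ 2 ≤ 1 := by
    intro t ht
    refine ⟨div_pos (sub_pos.2 ht.1) hr2, ?_⟩
    rw [div_le_one hr2]
    have := ht.2
    rw [ht₁]
    linarith
  have hloc : ∀ v w : Vec d, 0 ≤ 3 / r ^ 2 * (nsq (v - v₀) + nsq (w - v₀)) := by
    intro v w
    have h3 := nsq_nn (v - v₀)
    have h4 := nsq_nn (w - v₀)
    positivity
  have hPB : ∀ t ∈ Ioc t₁ t₀, ∀ (k : ℕ) (x v y w : Vec d),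
      K * (1 / 2) ^ k * Gk be κ r k (x - y) (v - w) +
        3 / r ^ 2 * (nsq (v - v₀) + nsq (w - v₀)) ≤ Ph be κ K r t₁ v₀ k t x v y w := by
    intro t ht k x v y w
    have := Tch_Bk (κ := κ) (r := r) hK (hτ t ht).1 (hτ t ht).2 k (x - y) (v - w)
    unfold Ph
    linarith
  -- large scales
  obtain ⟨k₀, hk₀⟩ := pow_unbounded_of_one_lt
    (4 / (min (1 / r ^ 3) (κ / r) * K ^ 3 / L)) (by norm_num : (1 : ℝ) < 2)
  have hc0 : 0 < min (1 / r ^ 3) (κ / r) := lt_min (by positivity) (by positivity)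
  have hcc : 0 < min (1 / r ^ 3) (κ / r) * K ^ 3 / L := by positivity
  have hbig : ∀ t ∈ Ioc t₁ t₀, ∀ k, k₀ ≤ k → ∀ x v y w : Vec d, len (v - v₀) ≤ r →
      len (w - v₀) ≤ r → u t x v - u t y w < Ph be κ K r t₁ v₀ k t x v y w := by
    intro t ht k hk x v y w hv hw
    have hk' : 4 < min (1 / r ^ 3) (κ / r) * K ^ 3 / L * 2 ^ k := by
      rw [div_lt_iff₀ hcc] at hk₀
      have h3 : (2 : ℝ) ^ k₀ ≤ 2 ^ k := pow_le_pow_right₀ (by norm_num) hk
      have h4 := mul_le_mul_of_nonneg_right h3 hcc.le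
      linarith
    have h3 := Tch_big (z := x - y) (w := v - w) hκ hr hK hL hk'
      (hD2 t (Ioc_subset_Icc_self ht) x v y w hv hw)
      (hlip t (Ioc_subset_Icc_self ht) x v y w hv hw)
    have h4 := hPB t ht k x v y w
    linarith [hloc v w]
  -- short times
  set τ₀ : ℝ := K * (1 / 2) ^ k₀ / 3 with hτ₀
  have hτ₀p : 0 < τ₀ := by positivity
  set ta : ℝ := t₁ + τ₀ * r ^ 2 with hta
  have hta1 : t₁ < ta := by
    rw [hta]
    have := mul_pos hτ₀p hr2
    linarith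
  have hshort : ∀ t ∈ Ioc t₁ t₀, t < ta → ∀ (k : ℕ), ∀ x v y w : Vec d, len (v - v₀) ≤ r →
      len (w - v₀) ≤ r → u t x v - u t y w < Ph be κ K r t₁ v₀ k t x v y w := by
    intro t ht htt k x v y w hv hw
    rcases le_or_gt k₀ k with hk | hk
    · exact hbig t ht k hk x v y w hv hw
    · have h3 := hD2 t (Ioc_subset_Icc_self ht) x v y w hv hw
      have hτt := hτ t ht
      have hG : 1 ≤ Gk be κ r k (x - y) (v - w) := one_le_GG _ _
      have h4 : (t - t₁) / r ^ 2 ≤ τ₀ := by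
        rw [div_le_iff₀ hr2]
        rw [hta] at htt
        linarith
      have h5 : (1 / 2 : ℝ) ^ k₀ ≤ (1 / 2) ^ k :=
        pow_le_pow_of_le_one (by norm_num) (by norm_num) hk.le
      have h6 : 3 ≤ K / ((t - t₁) / r ^ 2) * (1 / 2) ^ k := by
        rw [div_mul_eq_mul_div, le_div_iff₀ hτt.1]
        have h7 : 3 * ((t - t₁) / r ^ 2) ≤ 3 * τ₀ := mul_le_mul_of_nonneg_left h4 (by norm_num)
        have h8 : 3 * τ₀ = K * (1 / 2) ^ k₀ := by
          rw [hτ₀]
          ring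
        have h9 := mul_le_mul_of_nonneg_left h5 hK.le
        linarith
      have h7 : 3 ≤ Bk be κ K r ((t - t₁) / r ^ 2) k (x - y) (v - w) := by
        unfold Bk
        nlinarith
      have h8 := hloc v w
      unfold Ph
      linarith
  -- compactness
  obtain ⟨M, hM⟩ : ∃ M : ℝ, ∀ t ∈ Ioc t₁ t₀, ∀ k < k₀, ∀ x v y w : Vec d, len (v - v₀) ≤ r →
      len (w - v₀) ≤ r → Ph be κ K r t₁ v₀ k t x v y w ≤ u t x v - u t y w → len (x - y) ≤ M := by
    refine ⟨4 * (2 ^ k₀) ^ 2 / K ^ 2 / (min (1 / r ^ 3) (κ / r)), ?_⟩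
    intro t ht k hk x v y w hv hw hle
    have h3 := hD2 t (Ioc_subset_Icc_self ht) x v y w hv hw
    have h4 := hPB t ht k x v y w
    have h5 := hloc v w
    have hG : 1 ≤ Gk be κ r k (x - y) (v - w) := one_le_GG _ _
    have hG2 : Gk be κ r k (x - y) (v - w) ^ 2 =
        1 + RR be (Zk r k (x - y)) (Zk r k (x - y) - κ • Wk r k (v - w)) := GG_sq _ _
    have hR := Tch_RR hκ hr k (x - y) (v - w)
    have hl1 := len_nn (x - y)
    have hl2 := len_nn (v - w)
    have h6 : K * (1 / 2) ^ k * Gk be κ r k (x - y) (v - w) ≤ 2 := by linarith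
    have h7 : K * (1 / 2) ^ k₀ * Gk be κ r k (x - y) (v - w) ≤ 2 := by
      refine le_trans ?_ h6
      refine mul_le_mul_of_nonneg_right ?_ (by linarith)
      exact mul_le_mul_of_nonneg_left
        (pow_le_pow_of_le_one (by norm_num) (by norm_num) hk.le) hK.le
    have e1 : (1 / 2 : ℝ) ^ k₀ = 1 / 2 ^ k₀ := one_div_pow _ _
    rw [e1] at h7
    have hb : (0 : ℝ) < 2 ^ k₀ := by positivity
    set b : ℝ := 2 ^ k₀ with hbd
    have h8 : (K * (1 / b) * Gk be κ r k (x - y) (v - w)) ^ 2 ≤ 2 ^ 2 :=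
      pow_le_pow_left₀ (by positivity) h7 2
    have h9 : (K * (1 / b) * Gk be κ r k (x - y) (v - w)) ^ 2 =
        K ^ 2 / b ^ 2 * Gk be κ r k (x - y) (v - w) ^ 2 := by
      field_simp
    rw [h9, hG2, div_mul_eq_mul_div, div_le_iff₀ (by positivity)] at h8
    have h16 : (1 : ℝ) ≤ 16 ^ k := one_le_pow₀ (by norm_num)
    have h10 : min (1 / r ^ 3) (κ / r) * len (x - y) ≤
        min (1 / r ^ 3) (κ / r) * 16 ^ k * (len (x - y) + len (v - w)) := by
      have h11 : min (1 / r ^ 3) (κ / r) * len (x - y) ≤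
          min (1 / r ^ 3) (κ / r) * (len (x - y) + len (v - w)) :=
        mul_le_mul_of_nonneg_left (by linarith) hc0.le
      have h12 : 0 ≤ min (1 / r ^ 3) (κ / r) * (len (x - y) + len (v - w)) :=
        mul_nonneg hc0.le (by linarith)
      nlinarith
    rw [le_div_iff₀ hc0, le_div_iff₀ (by positivity)]
    have h13 : K ^ 2 * (min (1 / r ^ 3) (κ / r) * len (x - y)) ≤
        K ^ 2 * (1 + RR be (Zk r k (x - y)) (Zk r k (x - y) - κ • Wk r k (v - w))) :=
      mul_le_mul_of_nonneg_left (by linarith) (by positivity)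
    nlinarith
  set K0 : Set (ℝ × Vec d × Vec d × Vec d × Vec d) :=
    Icc ta t₀ ×ˢ (Icc (fun _ => (0 : ℝ)) (fun _ => (1 : ℝ)) ×ˢ ({v : Vec d | len (v - v₀) ≤ r} ×ˢ
      (Icc (fun _ => -M) (fun _ => 1 + M) ×ˢ {v : Vec d | len (v - v₀) ≤ r}))) with hK0
  have hK0c : IsCompact K0 := isCompact_Icc.prod (isCompact_Icc.prod ((Tch_ball v₀ r).prod
    (isCompact_Icc.prod (Tch_ball v₀ r))))
  have hK0s : K0 ⊆ {p | t₁ < p.1 ∧ p.1 < T} := by
    rintro p ⟨hp, _⟩
    exact ⟨lt_of_lt_of_le hta1 hp.1, lt_of_le_of_lt hp.2 h1⟩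
  set S : Set (ℝ × Vec d × Vec d × Vec d × Vec d) :=
    ⋃ k ∈ Finset.range k₀, K0 ∩ Tch_F u κ K r t₁ v₀ k ⁻¹' Iic 0 with hSd
  have hSc : IsCompact S := by
    refine (Finset.range k₀).isCompact_biUnion fun k _ => ?_
    refine IsCompact.of_isClosed_subset hK0c ?_ inter_subset_left
    exact ((Tch_cont hC hr ht10 v₀ k).mono hK0s).preimage_isClosed_of_isClosed hK0c.isClosed
      isClosed_Iic
  -- every bad point gives a point of `S` with the same time
  have hin : ∀ t ∈ Ioc t₁ t₀, ∀ (k : ℕ) (x v y w : Vec d), len (v - v₀) ≤ r →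
      len (w - v₀) ≤ r → Ph be κ K r t₁ v₀ k t x v y w ≤ u t x v - u t y w →
      ∃ p ∈ S, p.1 = t := by
    intro t ht k x v y w hv hw hle
    have hk : k < k₀ := by
      by_contra hk
      exact absurd (hbig t ht k (not_lt.1 hk) x v y w hv hw) (not_lt.2 hle)
    have hta2 : ta ≤ t := by
      by_contra hcon
      exact absurd (hshort t ht (not_le.1 hcon) k x v y w hv hw) (not_lt.2 hle)
    have htT : t ∈ Ioo 0 T := ⟨ht10.trans ht.1, lt_of_le_of_lt ht.2 h1⟩
    have hlen := hM t ht k hk x v y w hv hw hle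
    set n : Fin d → ℤ := fun i => -⌊x i⌋ with hn
    have e1 : u t (x + fun i => (n i : ℝ)) v = u t x v :=
      Tch_per (g := fun x => u t x v) (fun x i => hper t htT x v i) n x
    have e2 : u t (y + fun i => (n i : ℝ)) w = u t y w :=
      Tch_per (g := fun x => u t x w) (fun x i => hper t htT x w i) n y
    set x' : Vec d := x + fun i => (n i : ℝ) with hx'
    set y' : Vec d := y + fun i => (n i : ℝ) with hy'
    have hx'i : ∀ i, x' i = x i - ⌊x i⌋ := by
      intro i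
      rw [hx', Pi.add_apply, hn]
      push_cast
      ring
    have hsub : x' - y' = x - y := by
      rw [hx', hy']
      abel
    have hx0 : ∀ i, 0 ≤ x' i := fun i => by
      rw [hx'i]
      linarith [Int.floor_le (x i)]
    have hx1 : ∀ i, x' i ≤ 1 := fun i => by
      rw [hx'i]
      linarith [Int.lt_floor_add_one (x i)]
    have hyi : ∀ i, |x' i - y' i| ≤ M := fun i => by
      have := Tch_coord (x' - y') i
      rw [Pi.sub_apply, hsub] at this
      exact this.trans hlen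
    refine ⟨(t, x', v, y', w), ?_, rfl⟩
    rw [hSd, mem_iUnion₂]
    refine ⟨k, Finset.mem_range.2 hk, ⟨⟨hta2, ht.2⟩, ⟨hx0, hx1⟩, hv,
      ⟨fun i => ?_, fun i => ?_⟩, hw⟩, ?_⟩
    · show -M ≤ y' i
      have := (abs_le.1 (hyi i)).2
      linarith [hx0 i]
    · show y' i ≤ 1 + M
      have := (abs_le.1 (hyi i)).1
      linarith [hx1 i]
    · show Tch_F u κ K r t₁ v₀ k (t, x', v, y', w) ≤ 0
      unfold Tch_F
      show Ph be κ K r t₁ v₀ k t x' v y' w - (u t x' v - u t y' w) ≤ 0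
      rw [e1, e2]
      have e3 : Ph be κ K r t₁ v₀ k t x' v y' w = Ph be κ K r t₁ v₀ k t x v y w := by
        unfold Ph
        rw [hsub]
      rw [e3]
      linarith
  obtain ⟨tb, htb, kb, xb, vb, yb, wb, hvb, hwb, hleb⟩ := hbad
  obtain ⟨pb, hpbS, _⟩ := hin tb htb kb xb vb yb wb hvb hwb hleb
  obtain ⟨p, hpS, hpmin⟩ := hSc.exists_isMinOn ⟨pb, hpbS⟩ continuous_fst.continuousOn
  obtain ⟨t, x, v, y, w⟩ := p
  have hpS' := hpS
  rw [hSd, mem_iUnion₂] at hpS'
  obtain ⟨k, hk, ⟨⟨ht1, ht2⟩, _, hv, _, hw⟩, hF⟩ := hpS'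
  have hv' : len (v - v₀) ≤ r := hv
  have hw' : len (w - v₀) ≤ r := hw
  have ht : t ∈ Ioc t₁ t₀ := ⟨lt_of_lt_of_le hta1 ht1, ht2⟩
  have hF' : Ph be κ K r t₁ v₀ k t x v y w ≤ u t x v - u t y w := by
    have : Ph be κ K r t₁ v₀ k t x v y w - (u t x v - u t y w) ≤ 0 := hF
    linarith
  -- before `t`
  have hbef : ∀ s ∈ Ioo t₁ t, ∀ (k' : ℕ) (x' v' y' w' : Vec d), len (v' - v₀) ≤ r →
      len (w' - v₀) ≤ r → u s x' v' - u s y' w' < Ph be κ K r t₁ v₀ k' s x' v' y' w' := by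
    intro s hs k' x' v' y' w' hv'' hw''
    by_contra hcon
    obtain ⟨q, hq, hq1⟩ := hin s ⟨hs.1, hs.2.le.trans ht2⟩ k' x' v' y' w' hv'' hw'' (not_lt.1 hcon)
    have h3 : t ≤ q.1 := isMinOn_iff.1 hpmin q hq
    rw [hq1] at h3
    exact absurd hs.2 (not_lt.2 h3)
  have htT' : t < T := lt_of_le_of_lt ht2 h1
  have hat : ∀ (k' : ℕ) (x' v' y' w' : Vec d), len (v' - v₀) ≤ r → len (w' - v₀) ≤ r →
      u t x' v' - u t y' w' ≤ Ph be κ K r t₁ v₀ k' t x' v' y' w' := by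
    intro k' x' v' y' w' hv'' hw''
    have hO : IsOpen {p : ℝ × Vec d × Vec d × Vec d × Vec d | t₁ < p.1 ∧ p.1 < T} :=
      (isOpen_lt continuous_const continuous_fst).inter (isOpen_lt continuous_fst continuous_const)
    have hca : ContinuousAt (Tch_F u κ K r t₁ v₀ k') (t, x', v', y', w') :=
      (Tch_cont hC hr ht10 v₀ k').continuousAt (hO.mem_nhds ⟨ht.1, htT'⟩)
    have hcb : ContinuousAt (fun s : ℝ => Tch_F u κ K r t₁ v₀ k' (s, x', v', y', w')) t :=
      ContinuousAt.comp (f := fun s : ℝ => ((s, x', v', y', w') : ℝ × Vec d × Vec d × Vec d × Vec d))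
        hca (by fun_prop)
    have hlim : Tendsto (fun s : ℝ => Tch_F u κ K r t₁ v₀ k' (s, x', v', y', w')) (𝓝[<] t)
        (𝓝 (Tch_F u κ K r t₁ v₀ k' (t, x', v', y', w'))) := hcb.tendsto.mono_left nhdsWithin_le_nhds
    have hev : ∀ᶠ s in 𝓝[<] t, 0 ≤ Tch_F u κ K r t₁ v₀ k' (s, x', v', y', w') := by
      filter_upwards [Ioo_mem_nhdsLT ht.1] with s hs
      have := hbef s hs k' x' v' y' w' hv'' hw''
      show 0 ≤ Ph be κ K r t₁ v₀ k' s x' v' y' w' - (u s x' v' - u s y' w')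
      linarith
    have h3 : 0 ≤ Ph be κ K r t₁ v₀ k' t x' v' y' w' - (u t x' v' - u t y' w') :=
      ge_of_tendsto hlim hev
    linarith
  have hD := hD2 t (Ioc_subset_Icc_self ht) x v y w hv' hw'
  have hPk := hPB t ht k x v y w
  have hG : 1 ≤ Gk be κ r k (x - y) (v - w) := one_le_GG _ _
  have hKG : 0 < K * (1 / 2) ^ k * Gk be κ r k (x - y) (v - w) := by positivity
  have hnv := nsq_nn (v - v₀)
  have hnw := nsq_nn (w - v₀)
  have hin1 : 3 / r ^ 2 * (nsq (v - v₀) + nsq (w - v₀)) < 2 := by linarith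
  have hin2 : nsq (v - v₀) + nsq (w - v₀) < r ^ 2 := by
    rw [div_mul_eq_mul_div, div_lt_iff₀ hr2] at hin1
    linarith
  refine ⟨t, ht, k, x, v, y, w, ?_, ?_, le_antisymm (hat k x v y w hv' hw') hF', ?_⟩
  · refine lt_of_le_of_ne hv' fun h => ?_
    have := len_sq (v - v₀)
    rw [h] at this
    linarith
  · refine lt_of_le_of_ne hw' fun h => ?_
    have := len_sq (w - v₀)
    rw [h] at this
    linarith
  · intro s hs k' x' v' y' w' hv'' hw''
    rcases lt_or_eq_of_le hs.2 with h3 | h3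
    · exact (hbef s ⟨hs.1, h3⟩ k' x' v' y' w' hv'' hw'').le
    · rw [h3]
      exact hat k' x' v' y' w' hv'' hw''

end Pool.Agent.H15.KM
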