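import Pool.Agent.H15.KM.Nm

/-!
# Module Tst: derivative tests, derivatives of `u` along characteristics and along lines in the velocity
-/

set_option autoImplicit false

open MeasureTheory Set Filter Topology Pool.Agent.H25.Kin

namespace Pool.Agent.H15.KM

variable {d : ℕ}

/-- second derivative test -/
theorem sdt {H H' : ℝ → ℝ} {H2 : ℝ} (h1 : ∀ᶠ t in 𝓝 (0 : ℝ), HasDerivAt H (H' t) t)
    (h2 : HasDerivAt H' H2 0) (hmax : IsLocalMax H 0) : H2 ≤ 0 := by
  have h10 : HasDerivAt H (H' 0) 0 := h1.self_of_nhds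
  have h0 : H' 0 = 0 := hmax.hasDerivAt_eq_zero h10
  by_contra hneg
  rw [not_le] at hneg
  have hd : deriv H =ᶠ[𝓝 0] H' := h1.mono fun t ht => ht.deriv
  have hmin : IsLocalMin H 0 := by
    apply isLocalMin_of_deriv_deriv_pos
    · rw [hd.deriv_eq, h2.deriv]; exact hneg
    · rw [h10.deriv]; exact h0
    · exact h10.continuousAt
  have hconst : H =ᶠ[𝓝 0] fun _ => H 0 := by
    filter_upwards [hmin, hmax] with t ht1 ht2
    exact le_antisymm ht2 ht1
  have hd0 : H' =ᶠ[𝓝 0] fun _ => (0 : ℝ) := by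
    refine (hd.symm.trans hconst.deriv).trans (Eventually.of_forall fun t => ?_)
    simp
  have h4 : HasDerivAt H' 0 0 := (hasDerivAt_const (0 : ℝ) (0 : ℝ)).congr_of_eventuallyEq hd0
  have := h2.unique h4
  linarith

/-- one sided first derivative test -/
theorem fdt {H : ℝ → ℝ} {a : ℝ} (h : HasDerivAt H a 0) (h0 : H 0 = 0)
    (hle : ∀ᶠ τ in 𝓝[>] (0 : ℝ), H (-τ) ≤ 0) : 0 ≤ a := by
  have h1 : HasDerivAt (fun τ : ℝ => -H (-τ)) a 0 := by
    have hn : HasDerivAt (fun τ : ℝ => -τ) (-1) 0 := hasDerivAt_neg' (0 : ℝ)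
    have hd' : HasDerivAt H a (-(0 : ℝ)) := by rwa [neg_zero]
    have h3 := (hd'.comp (0 : ℝ) hn).neg
    rw [mul_neg, mul_one, neg_neg] at h3
    exact h3
  have h2 := h1.tendsto_slope_zero_right
  refine ge_of_tendsto h2 ?_
  filter_upwards [hle, self_mem_nhdsWithin] with τ h3 h4
  have h4' : 0 < τ := h4
  rw [zero_add, smul_eq_mul, neg_zero, h0, neg_zero, sub_zero]
  exact mul_nonneg (inv_nonneg.2 h4'.le) (by linarith)

theorem Tst_nhds {T t : ℝ} (ht : t ∈ Ioo 0 T) (x v : Vec d) :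
    Ioo 0 T ×ˢ (univ : Set (Vec d × Vec d)) ∈ 𝓝 (t, x, v) :=
  (isOpen_Ioo.prod isOpen_univ).mem_nhds ⟨ht, mem_univ _⟩

/-- derivative along the characteristics -/
theorem tr_deriv {T : ℝ} {u : ℝ → Vec d → Vec d → ℝ} (hC : C2On T u) {t : ℝ} (ht : t ∈ Ioo 0 T)
    (x v : Vec d) : HasDerivAt (fun s : ℝ => u (t + s) (x + s • v) v) (transport u t x v) 0 := by
  have hc : ContDiffAt ℝ 2 (unc u) (t, x, v) := hC.contDiffAt (Tst_nhds ht x v)
  have hd : DifferentiableAt ℝ (unc u) (t, x, v) := hc.differentiableAt (by norm_num)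
  have hl : HasDerivAt (fun s : ℝ => ((t + s, x + s • v, v) : ℝ × Vec d × Vec d)) (1, v, 0) 0 := by
    have e1 : HasDerivAt (fun s : ℝ => t + s) 1 0 := by
      simpa using (hasDerivAt_id (0 : ℝ)).const_add t
    have e2 : HasDerivAt (fun s : ℝ => x + s • v) v 0 := by
      simpa using ((hasDerivAt_id (0 : ℝ)).smul_const v).const_add x
    exact e1.prodMk (e2.prodMk (hasDerivAt_const (0 : ℝ) v))
  have h0 : ((t + 0, x + (0 : ℝ) • v, v) : ℝ × Vec d × Vec d) = (t, x, v) := by simp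
  have hd' : HasFDerivAt (unc u) (fderiv ℝ (unc u) (t, x, v))
      ((fun s : ℝ => ((t + s, x + s • v, v) : ℝ × Vec d × Vec d)) 0) := by
    show HasFDerivAt (unc u) (fderiv ℝ (unc u) (t, x, v)) (t + 0, x + (0 : ℝ) • v, v)
    rw [h0]
    exact hd.hasFDerivAt
  exact hd'.comp_hasDerivAt (0 : ℝ) hl

theorem slice_c2 {T : ℝ} {u : ℝ → Vec d → Vec d → ℝ} (hC : C2On T u) {t : ℝ} (ht : t ∈ Ioo 0 T)
    (x : Vec d) : ContDiff ℝ 2 (u t x) := by
  rw [contDiff_iff_contDiffAt]
  intro v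
  have hc : ContDiffAt ℝ 2 (unc u) (t, x, v) := hC.contDiffAt (Tst_nhds ht x v)
  have hl : ContDiffAt ℝ 2 (fun v : Vec d => ((t, x, v) : ℝ × Vec d × Vec d)) v := by fun_prop
  exact ContDiffAt.comp (g := unc u) (f := fun v : Vec d => ((t, x, v) : ℝ × Vec d × Vec d)) v hc hl

private theorem Tst_dir (g : Vec d → ℝ) (u w : Vec d) : fderiv ℝ g u w = ∑ i, w i * pd i g u := by
  have h : w = ∑ i, w i • (Pi.single i (1 : ℝ) : Vec d) := by
    funext j
    simp [Finset.sum_apply, Pi.single_apply]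
  conv_lhs => rw [h]
  rw [map_sum]
  exact Finset.sum_congr rfl fun i _ => by rw [map_smul, smul_eq_mul, pd]

private theorem Tst_line {f : Vec d → ℝ} {v w : Vec d} {t : ℝ}
    (hf : DifferentiableAt ℝ f (v + t • w)) :
    HasDerivAt (fun t : ℝ => f (v + t • w)) (∑ i, w i * pd i f (v + t • w)) t := by
  have hl : HasDerivAt (fun t : ℝ => v + t • w) w t := by
    simpa using ((hasDerivAt_id t).smul_const w).const_add v
  have h := hf.hasFDerivAt.comp_hasDerivAt t hl
  rw [Tst_dir] at h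
  exact h

theorem pd_diff {g : Vec d → ℝ} (hg : ContDiff ℝ 2 g) (j : Fin d) : Differentiable ℝ (pd j g) := by
  have h1 : ContDiff ℝ 1 (fderiv ℝ g) := hg.fderiv_right (by norm_num)
  have h2 : ContDiff ℝ 1 (pd j g) := h1.clm_apply contDiff_const
  exact h2.differentiable (by norm_num)

/-- first derivative along a line -/
theorem line1 {g : Vec d → ℝ} (hg : ContDiff ℝ 2 g) (v p : Vec d) (ε : ℝ) :
    HasDerivAt (fun ε : ℝ => g (v + ε • p)) (∑ j, p j * pd j g (v + ε • p)) ε :=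
  Tst_line (hg.differentiable (by norm_num) _)

/-- second derivative along a line -/
theorem line2 {g : Vec d → ℝ} (hg : ContDiff ℝ 2 g) (v p : Vec d) :
    HasDerivAt (fun ε : ℝ => ∑ j, p j * pd j g (v + ε • p)) (qf (fun i j => pd i (pd j g) v) p) 0 := by
  have h := HasDerivAt.fun_sum (u := (Finset.univ : Finset (Fin d)))
    (A := fun j (t : ℝ) => p j * pd j g (v + t • p))
    (A' := fun j => p j * ∑ i, p i * pd i (pd j g) (v + (0 : ℝ) • p)) (x := 0)
    fun j _ => (Tst_line (v := v) (w := p) (t := 0) (pd_diff hg j _)).const_mul (p j)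
  refine h.congr_deriv ?_
  unfold qf
  rw [Finset.sum_comm]
  refine Finset.sum_congr rfl fun j _ => ?_
  rw [Finset.mul_sum]
  refine Finset.sum_congr rfl fun i _ => ?_
  rw [zero_smul, add_zero]
  ring

/-- the Hessian is symmetric -/
theorem hess_symm {g : Vec d → ℝ} (hg : ContDiff ℝ 2 g) (v : Vec d) (i j : Fin d) :
    pd i (pd j g) v = pd j (pd i g) v := by
  have h1 : ContDiff ℝ 1 (fderiv ℝ g) := hg.fderiv_right (by norm_num)
  have hd : DifferentiableAt ℝ (fderiv ℝ g) v := h1.differentiable (by norm_num) v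
  have e : ∀ a b : Fin d, pd a (pd b g) v =
      fderiv ℝ (fderiv ℝ g) v (Pi.single a 1) (Pi.single b 1) := by
    intro a b
    have h2 : HasFDerivAt (pd b g)
        ((ContinuousLinearMap.apply ℝ ℝ (Pi.single b (1 : ℝ) : Vec d)).comp (fderiv ℝ (fderiv ℝ g) v))
        v :=
      (ContinuousLinearMap.apply ℝ ℝ (Pi.single b (1 : ℝ) : Vec d)).hasFDerivAt.comp v hd.hasFDerivAt
    show fderiv ℝ (pd b g) v (Pi.single a 1) = _
    rw [h2.fderiv]
    rfl
  have hs : IsSymmSndFDerivAt ℝ g v := hg.contDiffAt.isSymmSndFDerivAt (by simp)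
  rw [e, e]
  exact hs _ _

end Pool.Agent.H15.KM
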