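import Pool.Agent.H15.KM.Ann
import Pool.Agent.H15.KM.Der
import Pool.Agent.H15.KM.Mat
import Pool.Agent.H15.KM.Sc
import Pool.Agent.H15.KM.Tch
import Pool.Agent.H15.KM.Tst
import Pool.Agent.H15.KM.Alg

/-!
# Module Key: the inequality at a touching point
-/

set_option autoImplicit false

open MeasureTheory Set Filter Topology Pool.Agent.H25.Kin

namespace Pool.Agent.H15.KM

variable {d : ℕ}

theorem Zk_add (r : ℝ) (k : ℕ) (z a : Vec d) (s : ℝ) :
    Zk r k (z + s • a) = Zk r k z + s • (((4096 : ℝ) ^ k / r ^ 3) • a) := by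
  unfold Zk
  rw [smul_add, smul_comm]

theorem Wk_add (r : ℝ) (k : ℕ) (w a : Vec d) (s : ℝ) :
    Wk r k (w + s • a) = Wk r k w + s • (((16 : ℝ) ^ k / r) • a) := by
  unfold Wk
  rw [smul_add, smul_comm]

/-- the derivative of the barrier along the characteristics -/
theorem Ph_tr {lam K r t₁ : ℝ} (hr : 0 < r) (hl : 0 < lam) {v₀ : Vec d} {k : ℕ} {t : ℝ} (ht : t₁ < t)
    {x v y w : Vec d} (hn1 : 0 < nm be (Zk r k (x - y)) (Zk r k (x - y) - (10 / lam) • Wk r k (v - w)))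
    (hn2 : 0 < nm be (Zk r k (x - y) - (10 / lam) • Wk r k (v - w)) (Zk r k (x - y))) :
    HasDerivAt (fun s : ℝ => Ph be (10 / lam) K r t₁ v₀ k (t + s) (x + s • v) v (y + s • w) w)
      (-(Bk be (10 / lam) K r ((t - t₁) / r ^ 2) k (x - y) (v - w) / (t - t₁)) -
        K / ((t - t₁) / r ^ 2) * (1 / 2) ^ k * (256 ^ k / r ^ 2) *
          G1 be (Zk r k (x - y)) (Zk r k (x - y) - (10 / lam) • Wk r k (v - w))
            ((lam / 10) • (Zk r k (x - y) - (10 / lam) • Wk r k (v - w) - Zk r k (x - y)))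
            ((lam / 10) • (Zk r k (x - y) - (10 / lam) • Wk r k (v - w) - Zk r k (x - y)))) 0 := by
  obtain ⟨Z, hZ⟩ : ∃ Z : Vec d, Z = Zk r k (x - y) := ⟨_, rfl⟩
  obtain ⟨W, hW⟩ : ∃ W : Vec d, W = Wk r k (v - w) := ⟨_, rfl⟩
  rw [← hZ, ← hW] at hn1 hn2 ⊢
  have hU : (lam / 10) • (Z - (10 / lam) • W - Z) = -W := by
    rw [sub_sub_cancel_left, smul_neg, smul_smul]
    have : lam / 10 * (10 / lam) = 1 := by field_simp
    rw [this, one_smul]
  rw [hU]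
  have ha : ((4096 : ℝ) ^ k / r ^ 3) • (v - w) = (256 ^ k / r ^ 2 : ℝ) • W := by
    rw [hW, Wk, smul_smul]
    congr 1
    have : (4096 : ℝ) ^ k = 256 ^ k * 16 ^ k := by rw [← mul_pow]; norm_num
    rw [this]
    field_simp
  have hg := GG_deriv hn1 hn2 ((256 ^ k / r ^ 2 : ℝ) • W) ((256 ^ k / r ^ 2 : ℝ) • W)
  have e1 : G1 be Z (Z - (10 / lam) • W) ((256 ^ k / r ^ 2 : ℝ) • W) ((256 ^ k / r ^ 2 : ℝ) • W) =
      -((256 ^ k / r ^ 2) * G1 be Z (Z - (10 / lam) • W) (-W) (-W)) := by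
    rw [G1_smul]
    have h3 := G1_smul (β := be) (-1) Z (Z - (10 / lam) • W) W W
    rw [neg_one_smul] at h3
    rw [h3]
    ring
  rw [e1] at hg
  have hc : HasDerivAt (fun s : ℝ => K / ((t + s - t₁) / r ^ 2) * (1 / 2) ^ k)
      (-(K / ((t - t₁) / r ^ 2) * (1 / 2) ^ k / (t - t₁))) 0 := by
    have h4 : HasDerivAt (fun s : ℝ => (t + s - t₁) / r ^ 2) (1 / r ^ 2) 0 := by
      have h5 : HasDerivAt (fun s : ℝ => t + s - t₁) 1 0 := by
        simpa using ((hasDerivAt_id (0 : ℝ)).const_add t).sub_const t₁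
      exact h5.div_const _
    have h6 : (t + 0 - t₁) / r ^ 2 ≠ 0 := by
      rw [add_zero]
      have : 0 < t - t₁ := by linarith
      positivity
    have h7 := ((hasDerivAt_const (0 : ℝ) K).div h4 h6).mul_const ((1 / 2 : ℝ) ^ k)
    refine h7.congr_deriv ?_
    rw [add_zero]
    have h8 : t - t₁ ≠ 0 := by linarith
    field_simp
    ring
  have hB := hc.mul hg
  have hfun : (fun s : ℝ => Ph be (10 / lam) K r t₁ v₀ k (t + s) (x + s • v) v (y + s • w) w) =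
      fun s : ℝ => K / ((t + s - t₁) / r ^ 2) * (1 / 2) ^ k *
        GG be (Z + s • (256 ^ k / r ^ 2 : ℝ) • W) (Z - (10 / lam) • W + s • (256 ^ k / r ^ 2 : ℝ) • W) +
        3 / r ^ 2 * (nsq (v - v₀) + nsq (w - v₀)) := by
    funext s
    unfold Ph Bk Gk
    have e2 : x + s • v - (y + s • w) = (x - y) + s • (v - w) := by
      rw [smul_sub]
      abel
    rw [e2, Zk_add, ha, ← hZ, ← hW]
    have e3 : Z + s • (256 ^ k / r ^ 2 : ℝ) • W - (10 / lam) • W =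
        Z - (10 / lam) • W + s • (256 ^ k / r ^ 2 : ℝ) • W := by abel
    rw [e3]
  rw [hfun]
  refine (hB.add_const _).congr_deriv ?_
  unfold Bk Gk
  rw [← hZ, ← hW]
  simp only [zero_smul, add_zero]
  ring

/-- the second derivative of the barrier in the velocities -/
theorem Ph_vv {κ K r t₁ : ℝ} {v₀ : Vec d} {k : ℕ} {t : ℝ} {x v y w : Vec d}
    (hn1 : 0 < nm be (Zk r k (x - y)) (Zk r k (x - y) - κ • Wk r k (v - w)))
    (hn2 : 0 < nm be (Zk r k (x - y) - κ • Wk r k (v - w)) (Zk r k (x - y))) (p q : Vec d) :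
    ∃ g : ℝ → ℝ, (∀ᶠ ε in 𝓝 (0 : ℝ), HasDerivAt
      (fun ε : ℝ => Ph be κ K r t₁ v₀ k t x (v + ε • p) y (w + ε • q)) (g ε) ε) ∧
      HasDerivAt g (K / ((t - t₁) / r ^ 2) * (1 / 2) ^ k * (256 ^ k / r ^ 2) *
        G2 be (Zk r k (x - y)) (Zk r k (x - y) - κ • Wk r k (v - w)) (κ • (p - q)) +
        6 / r ^ 2 * (nsq p + nsq q)) 0 := by
  obtain ⟨Z, hZ⟩ : ∃ Z : Vec d, Z = Zk r k (x - y) := ⟨_, rfl⟩
  obtain ⟨W, hW⟩ : ∃ W : Vec d, W = Wk r k (v - w) := ⟨_, rfl⟩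
  rw [← hZ, ← hW] at hn1 hn2 ⊢
  obtain ⟨c, hc⟩ : ∃ c : ℝ, c = K / ((t - t₁) / r ^ 2) * (1 / 2) ^ k := ⟨_, rfl⟩
  obtain ⟨b, hb⟩ : ∃ b : Vec d, b = (-(16 ^ k / r) : ℝ) • (κ • (p - q)) := ⟨_, rfl⟩
  obtain ⟨h1, h2⟩ := GG_deriv_line hn1 hn2 b
  have hfun : (fun ε : ℝ => Ph be κ K r t₁ v₀ k t x (v + ε • p) y (w + ε • q)) =
      fun ε : ℝ => c * GG be Z (Z - κ • W + ε • b) +
        3 / r ^ 2 * ((nsq (v - v₀) + 2 * ε * dot (v - v₀) p + ε ^ 2 * nsq p) +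
          (nsq (w - v₀) + 2 * ε * dot (w - v₀) q + ε ^ 2 * nsq q)) := by
    funext ε
    unfold Ph Bk Gk
    have e2 : v + ε • p - (w + ε • q) = (v - w) + ε • (p - q) := by
      rw [smul_sub]
      abel
    have e3 : ∀ a a₀ c : Vec d, nsq (a + ε • c - a₀) =
        nsq (a - a₀) + 2 * ε * dot (a - a₀) c + ε ^ 2 * nsq c := by
      intro a a₀ c
      have e4 : a + ε • c - a₀ = (a - a₀) + ε • c := by abel
      rw [e4, nsq_add, dot_smul_r, nsq_smul]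
      ring
    rw [e2, Wk_add, ← hZ, ← hW, e3, e3, ← hc]
    have e5 : Z - κ • (W + ε • (16 ^ k / r : ℝ) • (p - q)) = Z - κ • W + ε • b := by
      rw [hb, smul_add, neg_smul, smul_neg]
      rw [smul_comm κ ε, smul_comm κ (16 ^ k / r : ℝ)]
      abel
    rw [e5]
  refine ⟨fun ε => c * G1 be Z (Z - κ • W + ε • b) 0 b +
    3 / r ^ 2 * ((2 * dot (v - v₀) p + 2 * ε * nsq p) + (2 * dot (w - v₀) q + 2 * ε * nsq q)), ?_, ?_⟩
  · rw [hfun]
    filter_upwards [h1] with ε hε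
    have a1 : ∀ (a n m : ℝ), HasDerivAt (fun ε : ℝ => a + 2 * ε * n + ε ^ 2 * m) (2 * n + 2 * ε * m) ε := by
      intro a n m
      have b1 : HasDerivAt (fun ε : ℝ => 2 * ε * n) (2 * n) ε := by
        simpa using ((hasDerivAt_id ε).const_mul 2).mul_const n
      have b2 : HasDerivAt (fun ε : ℝ => ε ^ 2 * m) (2 * ε * m) ε := by
        simpa using ((hasDerivAt_pow 2 ε).mul_const m)
      exact (b1.const_add a).add b2
    exact (hε.const_mul c).add (((a1 _ _ _).add (a1 _ _ _)).const_mul _)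
  · have a2 : ∀ (n m : ℝ), HasDerivAt (fun ε : ℝ => 2 * n + 2 * ε * m) (2 * m) 0 := by
      intro n m
      have b1 : HasDerivAt (fun ε : ℝ => 2 * ε * m) (2 * m) 0 := by
        simpa using ((hasDerivAt_id (0 : ℝ)).const_mul 2).mul_const m
      exact b1.const_add _
    have h3 := (h2.const_mul c).add (((a2 (dot (v - v₀) p) (nsq p)).add
      (a2 (dot (w - v₀) q) (nsq q))).const_mul (3 / r ^ 2))
    refine h3.congr_deriv ?_
    rw [hb, G2_smul, ← hc]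
    have e6 : (-(16 ^ k / r) : ℝ) ^ 2 = 256 ^ k / r ^ 2 := by
      rw [neg_sq, div_pow, ← pow_mul, mul_comm k 2, pow_mul]
      norm_num
    rw [e6]
    ring

end Pool.Agent.H15.KM
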