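import Pool.Agent.H15.KM.Defs

/-!
# Module Nm: elementary bounds of `nm`, `RR`, `GG`
-/

set_option autoImplicit false

open MeasureTheory Set Filter Topology Pool.Agent.H25.Kin

namespace Pool.Agent.H15.KM

variable {d : ℕ} {β : ℝ}

theorem nsq_nn (z : Vec d) : 0 ≤ nsq z := Finset.sum_nonneg fun i _ => sq_nonneg _

theorem dot_self' (z : Vec d) : dot z z = nsq z := by
  unfold dot nsq
  exact Finset.sum_congr rfl fun i _ => by ring

theorem len_sq (z : Vec d) : len z ^ 2 = nsq z := Real.sq_sqrt (nsq_nn z)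

theorem len_nn (z : Vec d) : 0 ≤ len z := Real.sqrt_nonneg _

theorem cs (a b : Vec d) : dot a b ^ 2 ≤ nsq a * nsq b := by
  unfold dot nsq
  exact Finset.sum_mul_sq_le_sq_mul_sq _ _ _

theorem dot_abs (a b : Vec d) : |dot a b| ≤ len a * len b := by
  rw [← Real.sqrt_sq_eq_abs, len, len, ← Real.sqrt_mul (nsq_nn a)]
  exact Real.sqrt_le_sqrt (cs a b)

theorem nsq_smul (c : ℝ) (a : Vec d) : nsq (c • a) = c ^ 2 * nsq a := by
  unfold nsq
  rw [Finset.mul_sum]
  exact Finset.sum_congr rfl fun i _ => by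
    simp only [Pi.smul_apply, smul_eq_mul]
    ring

theorem len_smul (c : ℝ) (a : Vec d) : len (c • a) = |c| * len a := by
  rw [len, len, nsq_smul, Real.sqrt_mul (sq_nonneg c), Real.sqrt_sq_eq_abs]

theorem nsq_add (a b : Vec d) : nsq (a + b) = nsq a + 2 * dot a b + nsq b := by
  unfold nsq dot
  rw [Finset.mul_sum, ← Finset.sum_add_distrib, ← Finset.sum_add_distrib]
  exact Finset.sum_congr rfl fun i _ => by
    simp only [Pi.add_apply]
    ring

theorem len_add (a b : Vec d) : len (a + b) ≤ len a + len b := by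
  refine Real.sqrt_le_iff.2 ⟨add_nonneg (len_nn a) (len_nn b), ?_⟩
  rw [nsq_add]
  have h1 := (abs_le.1 (dot_abs a b)).2
  nlinarith [len_sq a, len_sq b]

theorem len_neg (a : Vec d) : len (-a) = len a := by
  rw [← neg_one_smul ℝ a, len_smul]
  simp

theorem len_sub (a b : Vec d) : len (a - b) ≤ len a + len b := by
  rw [sub_eq_add_neg]
  refine (len_add a (-b)).trans ?_
  rw [len_neg]

theorem nm_nn (Z Q : Vec d) : 0 ≤ nm β Z Q := Real.sqrt_nonneg _

theorem len_le_nm (Z Q : Vec d) : len Z ≤ nm β Z Q :=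
  Real.sqrt_le_sqrt (by have := mul_nonneg (sq_nonneg β) (nsq_nn Q); linarith)

theorem nm_le (hβ : 0 ≤ β) (Z Q : Vec d) : nm β Z Q ≤ len Z + β * len Q := by
  refine Real.sqrt_le_iff.2 ⟨add_nonneg (len_nn Z) (mul_nonneg hβ (len_nn Q)), ?_⟩
  have h1 := mul_nonneg (len_nn Z) (mul_nonneg hβ (len_nn Q))
  nlinarith [len_sq Z, len_sq Q]

theorem mul_len_le_nm (hβ : 0 ≤ β) (Z Q : Vec d) : β * len Q ≤ nm β Z Q := by
  refine Real.le_sqrt_of_sq_le ?_
  rw [mul_pow, len_sq]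
  linarith [nsq_nn Z]

theorem len_le_RR (Z Q : Vec d) : 2 * len Z + len Q ≤ RR β Z Q := by
  have h1 := len_le_nm (β := β) Z Q
  have h2 := len_le_nm (β := β) Q Z
  unfold RR
  linarith

theorem RR_nn (Z Q : Vec d) : 0 ≤ RR β Z Q := by
  have h1 := nm_nn (β := β) Z Q
  have h2 := nm_nn (β := β) Q Z
  unfold RR
  linarith

theorem RR_le (hβ : 0 ≤ β) (Z Q : Vec d) : RR β Z Q ≤ (2 + β) * len Z + (1 + 2 * β) * len Q := by
  have h1 := nm_le hβ Z Q
  have h2 := nm_le hβ Q Z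
  unfold RR
  linarith

theorem one_le_GG (Z Q : Vec d) : 1 ≤ GG β Z Q := by
  refine Real.one_le_sqrt.2 ?_
  linarith [RR_nn (β := β) Z Q]

theorem GG_sq (Z Q : Vec d) : GG β Z Q ^ 2 = 1 + RR β Z Q :=
  Real.sq_sqrt (by linarith [RR_nn (β := β) Z Q])

/-- `nm` is positive away from `(0,0)` -/
theorem nm_pos (hβ : 0 < β) {Z Q : Vec d} (h : Z ≠ 0 ∨ Q ≠ 0) : 0 < nm β Z Q := by
  refine Real.sqrt_pos.2 ?_
  have hp : ∀ a : Vec d, a ≠ 0 → 0 < nsq a := by
    intro a ha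
    by_contra hc
    have h0 : nsq a = 0 := le_antisymm (not_lt.1 hc) (nsq_nn a)
    refine ha (funext fun i => ?_)
    have h1 := (Finset.sum_eq_zero_iff_of_nonneg (fun i _ => sq_nonneg (a i))).1 h0 i
      (Finset.mem_univ i)
    exact pow_eq_zero_iff (two_ne_zero) |>.1 h1
  rcases h with h | h
  · have := mul_nonneg (sq_nonneg β) (nsq_nn Q)
    linarith [hp Z h]
  · have h1 := mul_pos (pow_pos hβ 2) (hp Q h)
    linarith [nsq_nn Z]

end Pool.Agent.H15.KM
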